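import Mathlib

/-! The regular open completion of a preorder. -/

namespace Pool.Agent.BVM

universe u

open Heyting

section

variable {α : Type u} [Order.Frame α]

theorem isRegular_sInf {S : Set α} (hS : ∀ a ∈ S, IsRegular a) : IsRegular (sInf S) := by
  refine le_antisymm ?_ le_compl_compl
  refine le_sInf fun a ha => ?_
  have h1 : (sInf S)ᶜᶜ ≤ aᶜᶜ := compl_le_compl (compl_le_compl (sInf_le ha))
  rwa [hS a ha] at h1

noncomputable instance regularCBA : CompleteBooleanAlgebra (Regular α) :=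
  { (inferInstance : BooleanAlgebra (Regular α)) with
    sSup := fun S => Regular.toRegular (sSup (Regular.val '' S))
    sInf := fun S => ⟨sInf (Regular.val '' S), isRegular_sInf (by
      rintro a ⟨b, hb, rfl⟩
      exact b.2)⟩
    isLUB_sSup := by
      intro S
      constructor
      · intro a ha
        exact Regular.coe_le_coe.1
          ((le_sSup (Set.mem_image_of_mem Regular.val ha)).trans le_compl_compl)
      · intro b hb
        refine (Regular.gi.gc _ _).2 (sSup_le ?_)
        rintro a ⟨c, hc, rfl⟩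
        exact hb hc
    isGLB_sInf := by
      intro S
      constructor
      · intro a ha
        exact Regular.coe_le_coe.1 (sInf_le (Set.mem_image_of_mem Regular.val ha))
      · intro b hb
        refine Regular.coe_le_coe.1 (le_sInf ?_)
        rintro a ⟨c, hc, rfl⟩
        exact hb hc }

end

section

variable {P : Type u} [Preorder P]

theorem mem_compl_compl {a : LowerSet P} {p : P} (h : p ∈ aᶜᶜ) : ∃ r, r ≤ p ∧ r ∈ a := by
  by_contra hne
  push Not at hne
  have h1 : Disjoint (LowerSet.Iic p) a := by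
    rw [disjoint_iff_inf_le]
    intro r hr
    exact absurd hr.2 (hne r hr.1)
  have h2 : LowerSet.Iic p ≤ aᶜ := le_compl_iff_disjoint_right.2 h1
  have h3 : LowerSet.Iic p ≤ aᶜᶜ := by
    intro r hr
    exact aᶜᶜ.lower hr h
  have h4 : LowerSet.Iic p ≤ aᶜ ⊓ aᶜᶜ := le_inf h2 h3
  rw [inf_compl_self] at h4
  have h5 : p ∈ (⊥ : LowerSet P) := h4 (show p ∈ LowerSet.Iic p from le_refl p)
  exact h5

/-- Every preorder has a completion. -/
theorem exists_completion (P : Type u) [Preorder P] :
    ∃ (B : Type u) (_ : CompleteBooleanAlgebra B) (em : P → B),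
      (∀ p, em p ≠ ⊥) ∧ (∀ p q, p ≤ q → em p ≤ em q) ∧ (∀ b, b ≠ ⊥ → ∃ p, em p ≤ b) ∧
        (∀ p q, em p ⊓ em q ≠ ⊥ → ∃ r, r ≤ p ∧ r ≤ q) := by
  refine ⟨Regular (LowerSet P), inferInstance, fun p => Regular.toRegular (LowerSet.Iic p),
    ?_, ?_, ?_, ?_⟩
  · intro p h
    have h1 : (LowerSet.Iic p)ᶜᶜ = (⊥ : LowerSet P) := congrArg Regular.val h
    have h2 : LowerSet.Iic p ≤ (⊥ : LowerSet P) := le_compl_compl.trans h1.le
    have h5 : p ∈ (⊥ : LowerSet P) := h2 (show p ∈ LowerSet.Iic p from le_refl p)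
    exact h5
  · intro p q hpq
    exact Regular.toRegular.monotone (LowerSet.Iic_le.2 hpq)
  · intro b hb
    have h1 : b.val ≠ ⊥ := fun h => hb (Regular.coe_injective h)
    obtain ⟨p, hp⟩ : ∃ p, p ∈ b.val := by
      by_contra hne
      push Not at hne
      apply h1
      ext p
      simp [hne p]
    refine ⟨p, (Regular.gi.gc _ _).2 ?_⟩
    intro r hr
    exact b.val.lower hr hp
  · intro p q hpq
    have h1 : (Regular.toRegular (LowerSet.Iic p) ⊓ Regular.toRegular (LowerSet.Iic q)).val
        ≠ ⊥ := fun h => hpq (Regular.coe_injective h)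
    obtain ⟨s, hs⟩ : ∃ s, s ∈ (Regular.toRegular (LowerSet.Iic p) ⊓
        Regular.toRegular (LowerSet.Iic q)).val := by
      by_contra hne
      push Not at hne
      apply h1
      ext s
      constructor
      · intro h; exact absurd h (hne s)
      · intro h; exact absurd h (by simp)
    obtain ⟨hs1, hs2⟩ : s ∈ (LowerSet.Iic p)ᶜᶜ ∧ s ∈ (LowerSet.Iic q)ᶜᶜ := hs
    obtain ⟨r, hrs, hrp⟩ := mem_compl_compl hs1
    obtain ⟨t, htr, htq⟩ := mem_compl_compl ((LowerSet.Iic q)ᶜᶜ.lower hrs hs2)
    exact ⟨t, htr.trans hrp, htq⟩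

end

end Pool.Agent.BVM
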