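import Mathlib

/-! Boolean valued names over a complete Boolean algebra `B`. -/

namespace Pool.Agent.BVM

universe u

/-- `B`-names. -/
inductive BName (B : Type u) : Type (u + 1)
  | mk (ι : Type u) (a : ι → BName B) (b : ι → B) : BName B

namespace BName

/-- The index type of a name. -/
def Idx {B : Type u} : BName B → Type u
  | mk ι _ _ => ι

/-- The element family of a name. -/
def fam {B : Type u} : (x : BName B) → x.Idx → BName B
  | mk _ a _ => a

/-- The coefficient family of a name. -/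
def coe {B : Type u} : (x : BName B) → x.Idx → B
  | mk _ _ b => b

variable {B : Type u} [CompleteBooleanAlgebra B]

/-- Boolean value of equality. -/
def beq : BName B → BName B → B
  | mk _ a b, mk _ a' b' =>
    (⨅ i, b i ⇨ ⨆ j, b' j ⊓ beq (a i) (a' j)) ⊓ (⨅ j, b' j ⇨ ⨆ i, b i ⊓ beq (a i) (a' j))

/-- Boolean value of membership. -/
def bmem (x : BName B) : BName B → B
  | mk _ a b => ⨆ i, b i ⊓ beq x (a i)

theorem beq_mk {ι ι' : Type u} (a : ι → BName B) (b : ι → B) (a' : ι' → BName B) (b' : ι' → B) :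
    beq (mk ι a b) (mk ι' a' b') =
      (⨅ i, b i ⇨ ⨆ j, b' j ⊓ beq (a i) (a' j)) ⊓
        (⨅ j, b' j ⇨ ⨆ i, b i ⊓ beq (a i) (a' j)) := by
  rw [beq]

theorem bmem_mk (x : BName B) {ι : Type u} (a : ι → BName B) (b : ι → B) :
    bmem x (mk ι a b) = ⨆ i, b i ⊓ beq x (a i) := rfl

theorem bmem_eq (x y : BName B) : bmem x y = ⨆ i, y.coe i ⊓ beq x (y.fam i) := by
  cases y; rfl

theorem beq_refl (x : BName B) : beq x x = ⊤ := by
  induction x with
  | mk ι a b ih =>
    rw [beq_mk, eq_top_iff]
    refine le_inf (le_iInf fun i => ?_) (le_iInf fun i => ?_)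
    · rw [le_himp_iff, top_inf_eq]
      refine le_iSup_of_le i ?_
      rw [ih i, inf_top_eq]
    · rw [le_himp_iff, top_inf_eq]
      refine le_iSup_of_le i ?_
      rw [ih i, inf_top_eq]

theorem beq_symm (x y : BName B) : beq x y = beq y x := by
  induction x generalizing y with
  | mk ι a b ih =>
    cases y with
    | mk ι' a' b' =>
      rw [beq_mk, beq_mk, inf_comm]
      simp only [ih]

theorem beq_eq (x y : BName B) :
    beq x y = (⨅ i, x.coe i ⇨ bmem (x.fam i) y) ⊓ (⨅ j, y.coe j ⇨ bmem (y.fam j) x) := by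
  cases x with
  | mk ι a b =>
    cases y with
    | mk ι' a' b' =>
      rw [beq_mk]
      simp only [coe, fam, bmem_mk, Idx]
      congr 1
      refine iInf_congr fun j => ?_
      congr 1
      refine iSup_congr fun i => ?_
      rw [beq_symm]

theorem beq_le_left (x y : BName B) (i : x.Idx) : beq x y ⊓ x.coe i ≤ bmem (x.fam i) y := by
  rw [← le_himp_iff, beq_eq]
  exact inf_le_left.trans (iInf_le _ i)

theorem beq_le_right (x y : BName B) (j : y.Idx) : beq x y ⊓ y.coe j ≤ bmem (y.fam j) x := by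
  rw [beq_symm]
  exact beq_le_left y x j

theorem coe_le_bmem (x : BName B) (i : x.Idx) : x.coe i ≤ bmem (x.fam i) x := by
  rw [bmem_eq]
  refine le_iSup_of_le i ?_
  rw [beq_refl, inf_top_eq]

theorem beq_trans (x y z : BName B) : beq x y ⊓ beq y z ≤ beq x z := by
  induction x generalizing y z with
  | mk ι a b ih =>
    rw [beq_eq (mk ι a b) z]
    refine le_inf (le_iInf fun i => ?_) (le_iInf fun k => ?_)
    · rw [le_himp_iff]
      have h1 : beq (mk ι a b) y ⊓ beq y z ⊓ b i ≤ beq y z ⊓ bmem (a i) y :=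
        le_inf (inf_le_left.trans inf_le_right)
          ((inf_le_inf_right _ inf_le_left).trans (beq_le_left (mk ι a b) y i))
      refine h1.trans ?_
      rw [bmem_eq (a i) y, inf_iSup_eq]
      refine iSup_le fun j => ?_
      have h2 : beq y z ⊓ (y.coe j ⊓ beq (a i) (y.fam j)) ≤
          beq (a i) (y.fam j) ⊓ bmem (y.fam j) z :=
        le_inf (inf_le_right.trans inf_le_right)
          ((le_inf inf_le_left (inf_le_right.trans inf_le_left)).trans (beq_le_left y z j))
      refine h2.trans ?_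
      rw [bmem_eq (y.fam j) z, inf_iSup_eq]
      refine iSup_le fun k => ?_
      change _ ≤ bmem (a i) z
      rw [bmem_eq (a i) z]
      refine le_iSup_of_le k (le_inf (inf_le_right.trans inf_le_left) ?_)
      exact (le_inf inf_le_left (inf_le_right.trans inf_le_right)).trans (ih i _ _)
    · rw [le_himp_iff]
      have h1 : beq (mk ι a b) y ⊓ beq y z ⊓ z.coe k ≤ beq (mk ι a b) y ⊓ bmem (z.fam k) y :=
        le_inf (inf_le_left.trans inf_le_left)
          ((inf_le_inf_right _ inf_le_right).trans (beq_le_right y z k))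
      refine h1.trans ?_
      rw [bmem_eq (z.fam k) y, inf_iSup_eq]
      refine iSup_le fun j => ?_
      have h2 : beq (mk ι a b) y ⊓ (y.coe j ⊓ beq (z.fam k) (y.fam j)) ≤
          beq (z.fam k) (y.fam j) ⊓ bmem (y.fam j) (mk ι a b) :=
        le_inf (inf_le_right.trans inf_le_right)
          ((le_inf inf_le_left (inf_le_right.trans inf_le_left)).trans
            (beq_le_right (mk ι a b) y j))
      refine h2.trans ?_
      rw [bmem_mk, inf_iSup_eq]
      refine iSup_le fun i => ?_
      rw [bmem_mk]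
      refine le_iSup_of_le i (le_inf (inf_le_right.trans inf_le_left) ?_)
      rw [beq_symm (z.fam k) (a i), beq_symm (z.fam k) (y.fam j), beq_symm (y.fam j) (a i),
        inf_comm]
      exact (inf_le_inf_right _ inf_le_right).trans (ih i _ _)

theorem bmem_congr_left (x x' y : BName B) : beq x x' ⊓ bmem x y ≤ bmem x' y := by
  rw [bmem_eq x y, bmem_eq x' y, inf_iSup_eq]
  refine iSup_mono fun i => le_inf (inf_le_right.trans inf_le_left) ?_
  rw [beq_symm x x']
  exact (inf_le_inf_left _ inf_le_right).trans (beq_trans _ _ _)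

theorem bmem_congr_right (x y y' : BName B) : beq y y' ⊓ bmem x y ≤ bmem x y' := by
  rw [bmem_eq x y, inf_iSup_eq]
  refine iSup_le fun i => ?_
  have h : beq y y' ⊓ (y.coe i ⊓ beq x (y.fam i)) ≤ beq (y.fam i) x ⊓ bmem (y.fam i) y' := by
    rw [beq_symm (y.fam i) x]
    exact le_inf (inf_le_right.trans inf_le_right)
      ((le_inf inf_le_left (inf_le_right.trans inf_le_left)).trans (beq_le_left y y' i))
  exact h.trans (bmem_congr_left _ _ _)

/-- A `B`-valued predicate on names that respects equality. -/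
def Ext (φ : BName B → B) : Prop := ∀ x y, beq x y ⊓ φ x ≤ φ y

theorem ball_eq {φ : BName B → B} (hφ : Ext φ) (x : BName B) :
    (⨅ z, bmem z x ⇨ φ z) = ⨅ i, x.coe i ⇨ φ (x.fam i) := by
  apply le_antisymm
  · refine le_iInf fun i => (iInf_le _ (x.fam i)).trans ?_
    exact himp_le_himp_right (coe_le_bmem x i)
  · refine le_iInf fun z => ?_
    rw [le_himp_iff, bmem_eq, inf_iSup_eq]
    refine iSup_le fun i => ?_
    have h : (⨅ i, x.coe i ⇨ φ (x.fam i)) ⊓ (x.coe i ⊓ beq z (x.fam i)) ≤
        beq (x.fam i) z ⊓ φ (x.fam i) := by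
      rw [beq_symm (x.fam i) z]
      refine le_inf (inf_le_right.trans inf_le_right) ?_
      rw [← inf_assoc]
      refine inf_le_left.trans ?_
      rw [← le_himp_iff]
      exact iInf_le _ i
    exact h.trans (hφ _ _)

theorem bex_eq {φ : BName B → B} (hφ : Ext φ) (x : BName B) :
    (⨆ z, bmem z x ⊓ φ z) = ⨆ i, x.coe i ⊓ φ (x.fam i) := by
  apply le_antisymm
  · refine iSup_le fun z => ?_
    rw [bmem_eq, iSup_inf_eq]
    refine iSup_mono fun i => le_inf (inf_le_left.trans inf_le_left) ?_
    refine le_trans ?_ (hφ z _)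
    exact inf_le_inf_right _ inf_le_right
  · refine iSup_le fun i => le_iSup_of_le (x.fam i) ?_
    exact inf_le_inf_right _ (coe_le_bmem x i)

theorem ext_bmem_right (x : BName B) : Ext (fun y => bmem x y) :=
  fun y y' => bmem_congr_right x y y'

theorem ext_bmem_left (y : BName B) : Ext (fun x => bmem x y) :=
  fun x x' => bmem_congr_left x x' y

theorem ext_beq_left (y : BName B) : Ext (fun x => beq x y) := fun x x' => by
  change beq x x' ⊓ beq x y ≤ beq x' y
  rw [beq_symm x x']
  exact beq_trans _ _ _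

theorem beq_eq_iff (x y : BName B) :
    beq x y = ⨅ z, (bmem z x ⇨ bmem z y) ⊓ (bmem z y ⇨ bmem z x) := by
  rw [iInf_inf_eq, ball_eq (ext_bmem_left y), ball_eq (ext_bmem_left x), beq_eq]

/-- The mixing lemma. -/
theorem exists_mix {κ : Type u} (x : κ → BName B) (c : κ → B)
    (hc : Pairwise (fun i j => Disjoint (c i) (c j))) :
    ∃ y : BName B, ∀ k, c k ≤ beq y (x k) := by
  classical
  refine ⟨mk (Σ k, (x k).Idx) (fun p => (x p.1).fam p.2) (fun p => c p.1 ⊓ (x p.1).coe p.2),
    fun k => ?_⟩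
  rw [beq_eq]
  refine le_inf (le_iInf fun p => ?_) (le_iInf fun i => ?_)
  · obtain ⟨k', i⟩ := p
    rw [le_himp_iff]
    change c k ⊓ (c k' ⊓ (x k').coe i) ≤ bmem ((x k').fam i) (x k)
    by_cases hk : k = k'
    · subst hk
      exact inf_le_right.trans (inf_le_right.trans (coe_le_bmem _ _))
    · have h := hc hk
      have : c k ⊓ (c k' ⊓ (x k').coe i) ≤ ⊥ := by
        rw [← inf_assoc]
        exact inf_le_left.trans h.le_bot
      exact this.trans bot_le
  · rw [le_himp_iff, bmem_mk]
    refine le_iSup_of_le ⟨k, i⟩ ?_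
    change c k ⊓ (x k).coe i ≤ c k ⊓ (x k).coe i ⊓ beq ((x k).fam i) ((x k).fam i)
    rw [beq_refl, inf_top_eq]

/-- The maximum principle. -/
theorem exists_max {φ : BName B → B} (hφ : Ext φ) : ∃ x, φ x = ⨆ z, φ z := by
  classical
  let S := Set.range φ
  let r : S → S → Prop := WellOrderingRel
  let c : S → B := fun s => s.1 ⊓ (⨆ t : {t : S // r t s}, t.1.1)ᶜ
  have hdisj : Pairwise (fun i j => Disjoint (c i) (c j)) := by
    have key : ∀ s t : S, r s t → Disjoint (c s) (c t) := by
      intro s t hst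
      have h1 : c s ≤ ⨆ t' : {t' : S // r t' t}, t'.1.1 :=
        inf_le_left.trans (le_iSup (fun t' : {t' : S // r t' t} => t'.1.1) ⟨s, hst⟩)
      have h2 : c t ≤ (⨆ t' : {t' : S // r t' t}, t'.1.1)ᶜ := inf_le_right
      exact (disjoint_compl_right.mono h1 h2)
    intro s t hst
    rcases trichotomous_of r s t with h | h | h
    · exact key s t h
    · exact absurd h hst
    · exact (key t s h).symm
  have hsup : ∀ s : S, s.1 ≤ ⨆ t, c t := by
    intro s
    induction s using (IsWellFounded.wf (r := r)).induction with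
    | _ s ih =>
      have h1 : s.1 ≤ c s ⊔ (⨆ t : {t : S // r t s}, t.1.1) := by
        change s.1 ≤ (s.1 ⊓ (⨆ t : {t : S // r t s}, t.1.1)ᶜ) ⊔ (⨆ t : {t : S // r t s}, t.1.1)
        rw [sup_inf_right, compl_sup_eq_top, inf_top_eq]
        exact le_sup_left
      exact h1.trans (sup_le (le_iSup c s) (iSup_le fun t => ih t.1 t.2))
  have hx : ∀ s : S, ∃ x, φ x = s.1 := fun s => s.2
  choose x hx using hx
  obtain ⟨y, hy⟩ := exists_mix x c hdisj
  refine ⟨y, le_antisymm (le_iSup φ y) (iSup_le fun z => ?_)⟩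
  refine (hsup ⟨φ z, z, rfl⟩).trans (iSup_le fun s => ?_)
  have h1 : c s ≤ beq (x s) y ⊓ φ (x s) := by
    rw [beq_symm]
    refine le_inf (hy s) ?_
    rw [hx s]
    exact inf_le_left
  exact h1.trans (hφ _ _)

end BName

end Pool.Agent.BVM
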