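import Pool.Agent.MP_63050e_lc.Statement

/-! Working inside an arbitrary model `(M, E)` of ZFC: first order definability of predicates on
contexts, and the basic constructions. -/

set_option linter.unusedVariables false

namespace Pool.Agent.SM

open SetModel MP63050e FirstOrder FirstOrder.Language

universe u v v' v''

/-- Contexts: finite products of `M`, encoded as assignments. -/
class Ctx (M : outParam (Type u)) (Γ : Type v) where
  /-- the assignment of a point of the context -/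
  enc : Γ → ℕ → M

instance (priority := low) ctxOne (M : Type u) : Ctx M M := ⟨fun x _ => x⟩

instance (priority := high) ctxProd (M : Type u) (Γ : Type v) [Ctx M Γ] : Ctx M (Γ × M) :=
  ⟨fun p n => Nat.casesOn n p.2 (fun n => Ctx.enc p.1 n)⟩

section Dfn

variable {M : Type u} {Γ : Type v} {Δ : Type v'} {Θ : Type v''}

/-- Reindexing maps of contexts. -/
def CMap [Ctx M Γ] [Ctx M Δ] (f : Γ → Δ) : Prop :=
  ∀ n, (∃ c, ∀ γ, Ctx.enc (f γ) n = c) ∨ ∃ m, ∀ γ, Ctx.enc (f γ) n = Ctx.enc γ m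

/-- The predicate is first order definable with parameters. -/
def Dfn (E : M → M → Prop) [Ctx M Γ] (P : Γ → Prop) : Prop :=
  letI := memStructure E
  ∃ φ : memLang.Formula (M ⊕ ℕ), ∀ γ, P γ ↔ φ.Realize (Sum.elim id (Ctx.enc γ))

variable [Ctx M Γ] [Ctx M Δ] [Ctx M Θ]

theorem CMap.id : CMap (fun x : Γ => x) := fun n => Or.inr ⟨n, fun _ => rfl⟩

theorem CMap.fst {f : Γ → Δ × M} (hf : CMap f) : CMap (fun p => (f p).1) := fun n => hf (n + 1)

theorem CMap.snd {f : Γ → Δ × M} (hf : CMap f) : CMap (fun p => (f p).2) := fun n => hf 0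

theorem CMap.pair {f : Γ → Δ} {g : Γ → M} (hf : CMap f) (hg : CMap g) :
    CMap (fun p => (f p, g p)) := fun n =>
  match n with
  | 0 => hg 0
  | n + 1 => hf n

theorem CMap.const (c : Δ) : CMap (fun _ : Γ => c) := fun n => Or.inl ⟨_, fun _ => rfl⟩

theorem CMap.comp {f : Γ → Δ} {g : Θ → Γ} (hf : CMap f) (hg : CMap g) :
    CMap (fun p => f (g p)) := fun n => by
  rcases hf n with ⟨c, hc⟩ | ⟨m, hm⟩
  · exact Or.inl ⟨c, fun γ => hc _⟩
  · rcases hg m with ⟨c, hc⟩ | ⟨k, hk⟩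
    · exact Or.inl ⟨c, fun γ => (hm _).trans (hc _)⟩
    · exact Or.inr ⟨k, fun γ => (hm _).trans (hk _)⟩

variable {E : M → M → Prop}

theorem Dfn.congr {P Q : Γ → Prop} (hP : Dfn E P) (h : ∀ γ, Q γ ↔ P γ) : Dfn E Q := by
  obtain ⟨φ, hφ⟩ := hP
  exact ⟨φ, fun γ => (h γ).trans (hφ γ)⟩

theorem Dfn.comp {P : Γ → Prop} (hP : Dfn E P) {f : Δ → Γ} (hf : CMap f) :
    Dfn E (fun γ => P (f γ)) := by
  let _ := memStructure E
  obtain ⟨φ, hφ⟩ := hP
  have : ∀ n, ∃ t : M ⊕ ℕ, ∀ γ, Sum.elim id (Ctx.enc γ) t = Ctx.enc (f γ) n := by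
    intro n
    rcases hf n with ⟨c, hc⟩ | ⟨m, hm⟩
    · exact ⟨Sum.inl c, fun γ => (hc γ).symm⟩
    · exact ⟨Sum.inr m, fun γ => (hm γ).symm⟩
  choose t ht using this
  refine ⟨φ.relabel (Sum.elim Sum.inl t), fun γ => ?_⟩
  rw [Formula.realize_relabel]
  refine (hφ (f γ)).trans ?_
  have : (Sum.elim _root_.id (Ctx.enc γ) ∘ Sum.elim Sum.inl t : M ⊕ ℕ → M) =
      Sum.elim _root_.id (Ctx.enc (f γ)) := by
    funext a
    rcases a with a | a
    · rfl
    · exact ht a γ
  rw [this]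

theorem Dfn.not {P : Γ → Prop} (hP : Dfn E P) : Dfn E (fun γ => ¬ P γ) := by
  let _ := memStructure E
  obtain ⟨φ, hφ⟩ := hP
  exact ⟨∼φ, fun γ => by rw [Formula.realize_not, ← hφ]⟩

theorem Dfn.and {P Q : Γ → Prop} (hP : Dfn E P) (hQ : Dfn E Q) :
    Dfn E (fun γ => P γ ∧ Q γ) := by
  let _ := memStructure E
  obtain ⟨φ, hφ⟩ := hP
  obtain ⟨ψ, hψ⟩ := hQ
  exact ⟨φ ⊓ ψ, fun γ => by rw [Formula.realize_inf, ← hφ, ← hψ]⟩

theorem Dfn.or {P Q : Γ → Prop} (hP : Dfn E P) (hQ : Dfn E Q) :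
    Dfn E (fun γ => P γ ∨ Q γ) := (hP.not.and hQ.not).not.congr fun γ => by tauto

theorem Dfn.imp {P Q : Γ → Prop} (hP : Dfn E P) (hQ : Dfn E Q) :
    Dfn E (fun γ => P γ → Q γ) := (hP.and hQ.not).not.congr fun γ => by tauto

theorem Dfn.iff {P Q : Γ → Prop} (hP : Dfn E P) (hQ : Dfn E Q) :
    Dfn E (fun γ => P γ ↔ Q γ) := ((hP.imp hQ).and (hQ.imp hP)).congr fun γ => by tauto

theorem Dfn.const (p : Prop) : Dfn E (fun _ : Γ => p) := by
  let _ := memStructure E
  classical
  by_cases hp : p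
  · exact ⟨⊤, fun γ => by simp [hp]⟩
  · exact ⟨⊥, fun γ => by simp [hp, Formula.Realize]⟩

theorem Dfn.mem {f g : Γ → M} (hf : CMap f) (hg : CMap g) : Dfn E (fun γ => E (f γ) (g γ)) := by
  have h0 : Dfn E (fun p : M × M => E p.1 p.2) := by
    let _ := memStructure E
    refine ⟨Relations.formula₂ (L := memLang) MemRel.mem (Term.var (Sum.inr 1))
      (Term.var (Sum.inr 0)), fun γ => ?_⟩
    refine Iff.trans ?_ (Formula.realize_rel₂ (L := memLang)).symm
    exact Iff.rfl
  exact h0.comp (f := fun γ => (f γ, g γ)) (hf.pair hg)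

theorem Dfn.eq {f g : Γ → M} (hf : CMap f) (hg : CMap g) : Dfn E (fun γ => f γ = g γ) := by
  have h0 : Dfn E (fun p : M × M => p.1 = p.2) := by
    let _ := memStructure E
    refine ⟨Term.equal (Term.var (Sum.inr 1)) (Term.var (Sum.inr 0)), fun γ => ?_⟩
    rw [Formula.realize_equal]
    exact Iff.rfl
  exact h0.comp (f := fun γ => (f γ, g γ)) (hf.pair hg)

theorem Dfn.ex {Q : Γ → M → Prop} (hQ : Dfn E (fun p : Γ × M => Q p.1 p.2)) :
    Dfn E (fun γ => ∃ x, Q γ x) := by
  let _ := memStructure E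
  obtain ⟨φ, hφ⟩ := hQ
  let g : M ⊕ ℕ → (M ⊕ ℕ) ⊕ Fin 1 := Sum.elim (fun c => Sum.inl (Sum.inl c))
    (fun n => Nat.casesOn n (Sum.inr 0) (fun n => Sum.inl (Sum.inr n)))
  refine ⟨(BoundedFormula.relabel (n := 1) g φ : memLang.BoundedFormula (M ⊕ ℕ) 1).ex,
    fun γ => ?_⟩
  rw [Formula.Realize, BoundedFormula.realize_ex]
  refine exists_congr fun x => ?_
  refine (hφ (γ, x)).trans ?_
  rw [BoundedFormula.realize_relabel, Formula.Realize]
  have h1 : (Sum.elim (Sum.elim _root_.id (Ctx.enc γ))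
      ((Fin.snoc (default : Fin 0 → M) x : Fin 1 → M) ∘ Fin.castAdd 0) ∘ g : M ⊕ ℕ → M) =
      Sum.elim _root_.id (Ctx.enc (γ, x)) := by
    funext a
    rcases a with a | a
    · rfl
    · rcases a with _ | a
      · rfl
      · rfl
  rw [h1]
  have h2 : ((Fin.snoc (default : Fin 0 → M) x : Fin 1 → M) ∘ Fin.natAdd 1 : Fin 0 → M) = default :=
    funext fun i => i.elim0
  rw [h2]

theorem Dfn.all {Q : Γ → M → Prop} (hQ : Dfn E (fun p : Γ × M => Q p.1 p.2)) :
    Dfn E (fun γ => ∀ x, Q γ x) :=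
  (Dfn.ex (Q := fun γ x => ¬ Q γ x) hQ.not).not.congr fun γ => by simp

theorem Dfn.exu {Q : Γ → M → Prop} (hQ : Dfn E (fun p : Γ × M => Q p.1 p.2)) :
    Dfn E (fun γ => ∃! x, Q γ x) := by
  unfold ExistsUnique
  refine Dfn.ex (Q := fun γ x => Q γ x ∧ ∀ y, Q γ y → y = x) ?_
  refine hQ.and (Dfn.all (Q := fun (p : Γ × M) y => Q p.1 y → y = p.2) ?_)
  refine Dfn.imp ?_ (Dfn.eq CMap.id.snd CMap.id.fst.snd)
  exact hQ.comp (f := fun p : (Γ × M) × M => (p.1.1, p.2)) (CMap.pair CMap.id.fst.fst CMap.id.snd)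

/-- Definability of predicates with several arguments. -/
def Dfn1 (E : M → M → Prop) (P : M → Prop) : Prop := Dfn E (fun p : M => P p)
/-- Definability of predicates with several arguments. -/
def Dfn2 (E : M → M → Prop) (P : M → M → Prop) : Prop := Dfn E (fun p : M × M => P p.1 p.2)
/-- Definability of predicates with several arguments. -/
def Dfn3 (E : M → M → Prop) (P : M → M → M → Prop) : Prop :=
  Dfn E (fun p : (M × M) × M => P p.1.1 p.1.2 p.2)
/-- Definability of predicates with several arguments. -/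
def Dfn4 (E : M → M → Prop) (P : M → M → M → M → Prop) : Prop :=
  Dfn E (fun p : ((M × M) × M) × M => P p.1.1.1 p.1.1.2 p.1.2 p.2)
/-- Definability of predicates with several arguments. -/
def Dfn5 (E : M → M → Prop) (P : M → M → M → M → M → Prop) : Prop :=
  Dfn E (fun p : (((M × M) × M) × M) × M => P p.1.1.1.1 p.1.1.1.2 p.1.1.2 p.1.2 p.2)
/-- Definability of predicates with several arguments. -/
def Dfn6 (E : M → M → Prop) (P : M → M → M → M → M → M → Prop) : Prop :=
  Dfn E (fun p : ((((M × M) × M) × M) × M) × M => P p.1.1.1.1.1 p.1.1.1.1.2 p.1.1.1.2 p.1.1.2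
    p.1.2 p.2)

variable {f1 f2 f3 f4 f5 f6 : Γ → M}

theorem Dfn.comp1 {P : M → Prop} (hP : Dfn1 E P) (h1 : CMap f1) :
    Dfn E (fun γ => P (f1 γ)) := Dfn.comp hP h1

theorem Dfn.comp2 {P : M → M → Prop} (hP : Dfn2 E P) (h1 : CMap f1) (h2 : CMap f2) :
    Dfn E (fun γ => P (f1 γ) (f2 γ)) := Dfn.comp hP (h1.pair h2)

theorem Dfn.comp3 {P : M → M → M → Prop} (hP : Dfn3 E P) (h1 : CMap f1) (h2 : CMap f2)
    (h3 : CMap f3) : Dfn E (fun γ => P (f1 γ) (f2 γ) (f3 γ)) :=
  Dfn.comp hP ((h1.pair h2).pair h3)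

theorem Dfn.comp4 {P : M → M → M → M → Prop} (hP : Dfn4 E P) (h1 : CMap f1) (h2 : CMap f2)
    (h3 : CMap f3) (h4 : CMap f4) : Dfn E (fun γ => P (f1 γ) (f2 γ) (f3 γ) (f4 γ)) :=
  Dfn.comp hP (((h1.pair h2).pair h3).pair h4)

theorem Dfn.comp5 {P : M → M → M → M → M → Prop} (hP : Dfn5 E P) (h1 : CMap f1) (h2 : CMap f2)
    (h3 : CMap f3) (h4 : CMap f4) (h5 : CMap f5) :
    Dfn E (fun γ => P (f1 γ) (f2 γ) (f3 γ) (f4 γ) (f5 γ)) :=
  Dfn.comp hP ((((h1.pair h2).pair h3).pair h4).pair h5)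

theorem Dfn.comp6 {P : M → M → M → M → M → M → Prop} (hP : Dfn6 E P) (h1 : CMap f1)
    (h2 : CMap f2) (h3 : CMap f3) (h4 : CMap f4) (h5 : CMap f5) (h6 : CMap f6) :
    Dfn E (fun γ => P (f1 γ) (f2 γ) (f3 γ) (f4 γ) (f5 γ) (f6 γ)) :=
  Dfn.comp hP (((((h1.pair h2).pair h3).pair h4).pair h5).pair h6)

end Dfn

section Notions

variable {M : Type u} {E : M → M → Prop}

theorem dfn_isUPair : Dfn3 E (IsUPair E) := by
  unfold Dfn3 IsUPair
  repeat' first
    | assumption
    | exact CMap.id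
    | apply CMap.fst
    | apply CMap.snd
    | exact CMap.const _
    | apply Dfn.mem
    | apply Dfn.eq
    | apply Dfn.not
    | apply Dfn.and
    | apply Dfn.or
    | apply Dfn.iff
    | apply Dfn.imp
    | refine Dfn.ex ?_
    | refine Dfn.all ?_
    | refine Dfn.exu ?_
    | exact Dfn.const _

theorem dfn_isPair : Dfn3 E (IsPair E) := by
  unfold Dfn3 IsPair
  repeat' first
    | apply Dfn.comp3 dfn_isUPair
    | assumption
    | exact CMap.id
    | apply CMap.fst
    | apply CMap.snd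
    | exact CMap.const _
    | apply Dfn.mem
    | apply Dfn.eq
    | apply Dfn.not
    | apply Dfn.and
    | apply Dfn.or
    | apply Dfn.iff
    | apply Dfn.imp
    | refine Dfn.ex ?_
    | refine Dfn.all ?_
    | refine Dfn.exu ?_
    | exact Dfn.const _

theorem dfn_has2 : Dfn3 E (fun f a b => Has E f [a, b]) := by
  unfold Dfn3 Has IsTuple IsTuple
  repeat' first
    | apply Dfn.comp3 dfn_isPair
    | apply Dfn.comp3 dfn_isUPair
    | assumption
    | exact CMap.id
    | apply CMap.fst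
    | apply CMap.snd
    | exact CMap.const _
    | apply Dfn.mem
    | apply Dfn.eq
    | apply Dfn.not
    | apply Dfn.and
    | apply Dfn.or
    | apply Dfn.iff
    | apply Dfn.imp
    | refine Dfn.ex ?_
    | refine Dfn.all ?_
    | refine Dfn.exu ?_
    | exact Dfn.const _

theorem dfn_has3 : Dfn4 E (fun f a b c => Has E f [a, b, c]) := by
  unfold Dfn4 Has IsTuple IsTuple IsTuple
  repeat' first
    | apply Dfn.comp3 dfn_isPair
    | apply Dfn.comp3 dfn_isUPair
    | assumption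
    | exact CMap.id
    | apply CMap.fst
    | apply CMap.snd
    | exact CMap.const _
    | apply Dfn.mem
    | apply Dfn.eq
    | apply Dfn.not
    | apply Dfn.and
    | apply Dfn.or
    | apply Dfn.iff
    | apply Dfn.imp
    | refine Dfn.ex ?_
    | refine Dfn.all ?_
    | refine Dfn.exu ?_
    | exact Dfn.const _

theorem dfn_has4 : Dfn5 E (fun f a b c d => Has E f [a, b, c, d]) := by
  unfold Dfn5 Has IsTuple IsTuple IsTuple IsTuple
  repeat' first
    | apply Dfn.comp3 dfn_isPair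
    | apply Dfn.comp3 dfn_isUPair
    | assumption
    | exact CMap.id
    | apply CMap.fst
    | apply CMap.snd
    | exact CMap.const _
    | apply Dfn.mem
    | apply Dfn.eq
    | apply Dfn.not
    | apply Dfn.and
    | apply Dfn.or
    | apply Dfn.iff
    | apply Dfn.imp
    | refine Dfn.ex ?_
    | refine Dfn.all ?_
    | refine Dfn.exu ?_
    | exact Dfn.const _

theorem dfn_isTuple3 : Dfn4 E (fun t a b c => IsTuple E t [a, b, c]) := by
  unfold Dfn4 IsTuple IsTuple IsTuple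
  repeat' first
    | apply Dfn.comp5 dfn_has4
    | apply Dfn.comp4 dfn_has3
    | apply Dfn.comp3 dfn_has2
    | apply Dfn.comp3 dfn_isPair
    | apply Dfn.comp3 dfn_isUPair
    | assumption
    | exact CMap.id
    | apply CMap.fst
    | apply CMap.snd
    | exact CMap.const _
    | apply Dfn.mem
    | apply Dfn.eq
    | apply Dfn.not
    | apply Dfn.and
    | apply Dfn.or
    | apply Dfn.iff
    | apply Dfn.imp
    | refine Dfn.ex ?_
    | refine Dfn.all ?_
    | refine Dfn.exu ?_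
    | exact Dfn.const _

theorem dfn_isFun : Dfn3 E (IsFun E) := by
  unfold Dfn3 IsFun
  repeat' first
    | apply Dfn.comp4 dfn_isTuple3
    | apply Dfn.comp5 dfn_has4
    | apply Dfn.comp4 dfn_has3
    | apply Dfn.comp3 dfn_has2
    | apply Dfn.comp3 dfn_isPair
    | apply Dfn.comp3 dfn_isUPair
    | assumption
    | exact CMap.id
    | apply CMap.fst
    | apply CMap.snd
    | exact CMap.const _
    | apply Dfn.mem
    | apply Dfn.eq
    | apply Dfn.not
    | apply Dfn.and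
    | apply Dfn.or
    | apply Dfn.iff
    | apply Dfn.imp
    | refine Dfn.ex ?_
    | refine Dfn.all ?_
    | refine Dfn.exu ?_
    | exact Dfn.const _

theorem dfn_injects : Dfn2 E (Injects E) := by
  unfold Dfn2 Injects
  repeat' first
    | apply Dfn.comp3 dfn_isFun
    | apply Dfn.comp4 dfn_isTuple3
    | apply Dfn.comp5 dfn_has4
    | apply Dfn.comp4 dfn_has3
    | apply Dfn.comp3 dfn_has2
    | apply Dfn.comp3 dfn_isPair
    | apply Dfn.comp3 dfn_isUPair
    | assumption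
    | exact CMap.id
    | apply CMap.fst
    | apply CMap.snd
    | exact CMap.const _
    | apply Dfn.mem
    | apply Dfn.eq
    | apply Dfn.not
    | apply Dfn.and
    | apply Dfn.or
    | apply Dfn.iff
    | apply Dfn.imp
    | refine Dfn.ex ?_
    | refine Dfn.all ?_
    | refine Dfn.exu ?_
    | exact Dfn.const _

end Notions

end Pool.Agent.SM
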