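import Pool.Agent.Lib.helper63.Name

/-! Ultrafilters on `B`, the two valued quotient models, and the calculus of
uniformly definable predicates. -/

set_option linter.unusedVariables false

namespace Pool.Agent.BVM

universe u v w

open BName

/-- An ultrafilter on `B`, as a two valued homomorphism. -/
structure Ult (B : Type u) [CompleteBooleanAlgebra B] where
  /-- membership -/
  V : B → Prop
  top' : V ⊤
  inf' : ∀ a b, V (a ⊓ b) ↔ V a ∧ V b
  compl' : ∀ a, V aᶜ ↔ ¬ V a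

namespace Ult

variable {B : Type u} [CompleteBooleanAlgebra B] (h : Ult B)

theorem mono {a b : B} (hab : a ≤ b) (ha : h.V a) : h.V b := by
  have : a ⊓ b = a := inf_eq_left.2 hab
  rw [← this, h.inf'] at ha
  exact ha.2

theorem sup {a b : B} : h.V (a ⊔ b) ↔ h.V a ∨ h.V b := by
  have : a ⊔ b = (aᶜ ⊓ bᶜ)ᶜ := by simp
  rw [this, h.compl', h.inf', h.compl', h.compl']
  tauto

theorem himp {a b : B} : h.V (a ⇨ b) ↔ (h.V a → h.V b) := by
  rw [himp_eq, h.sup, h.compl']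
  tauto

theorem bot : ¬ h.V (⊥ : B) := by
  have : (⊥ : B) = ⊤ᶜ := by simp
  rw [this, h.compl']
  exact fun hh => hh h.top'

theorem ne_bot {b : B} (hb : h.V b) : b ≠ ⊥ := fun h' => h.bot (h' ▸ hb)

theorem exists_of_ne_bot {b : B} (hb : b ≠ ⊥) : ∃ h : Ult B, h.V b := by
  classical
  have hd : Disjoint (Order.PFilter.principal b : Set B) (Order.Ideal.principal (⊥ : B) : Set B) := by
    rw [Set.disjoint_left]
    intro x hx hx'
    simp only [SetLike.mem_coe, Order.PFilter.mem_principal, Order.Ideal.mem_principal, le_bot_iff] at hx hx'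
    subst hx'
    exact hb (le_bot_iff.1 hx)
  obtain ⟨J, hJ, -, hJd⟩ := DistribLattice.prime_ideal_of_disjoint_filter_ideal hd
  refine ⟨⟨fun x => x ∉ J, ?_, ?_, ?_⟩, ?_⟩
  · exact Order.Ideal.isProper_iff_top_notMem.1 hJ.toIsProper
  · intro x y
    constructor
    · intro hxy
      exact ⟨fun hx => hxy (J.lower inf_le_left hx), fun hy => hxy (J.lower inf_le_right hy)⟩
    · rintro ⟨hx, hy⟩ hxy
      rcases hJ.mem_or_mem hxy with h | h
      · exact hx h
      · exact hy h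
  · intro x
    constructor
    · intro hx hx'
      exact hx (hJ.compl_mem_of_notMem hx')
    · intro hx hx'
      rw [not_not] at hx
      exact (hJ.toIsProper.notMem_of_compl_mem hx') hx
  · intro hb'
    exact (Set.disjoint_left.1 hJd) (Order.PFilter.mem_principal.2 le_rfl) hb'

theorem le_iff {a b : B} : a ≤ b ↔ ∀ h : Ult B, h.V a → h.V b := by
  constructor
  · intro hab h ha
    exact h.mono hab ha
  · intro H
    by_contra hab
    have hne : a ⊓ bᶜ ≠ ⊥ := by
      intro h0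
      apply hab
      have := disjoint_iff.2 h0
      exact (le_compl_iff_disjoint_right.2 this).trans (compl_compl b).le
    obtain ⟨h, hh⟩ := exists_of_ne_bot hne
    rw [h.inf', h.compl'] at hh
    exact hh.2 (H h hh.1)

theorem eq_top_iff' {a : B} : a = ⊤ ↔ ∀ h : Ult B, h.V a := by
  rw [eq_top_iff, le_iff]
  exact ⟨fun H h => H h h.top', fun H h _ => H h⟩

/-- For a finite or infinite family: if `h` contains one member it contains the supremum. -/
theorem iSup_of {ι : Sort*} (f : ι → B) (i : ι) (hi : h.V (f i)) : h.V (⨆ i, f i) :=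
  h.mono (le_iSup f i) hi

theorem iInf_at {ι : Sort*} (f : ι → B) (i : ι) (hi : h.V (⨅ i, f i)) : h.V (f i) :=
  h.mono (iInf_le f i) hi

/-- Fullness. -/
theorem exists_iff {φ : BName B → B} (hφ : Ext φ) : h.V (⨆ x, φ x) ↔ ∃ x, h.V (φ x) := by
  constructor
  · intro hh
    obtain ⟨x, hx⟩ := exists_max hφ
    exact ⟨x, by rw [hx]; exact hh⟩
  · rintro ⟨x, hx⟩
    exact h.iSup_of φ x hx

end Ult

theorem BName.Ext.compl {B : Type u} [CompleteBooleanAlgebra B] {φ : BName B → B} (hφ : Ext φ) :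
    Ext (fun x => (φ x)ᶜ) := by
  intro x y
  change beq x y ⊓ (φ x)ᶜ ≤ (φ y)ᶜ
  rw [le_compl_iff_disjoint_right, disjoint_iff_inf_le]
  have : beq x y ⊓ (φ x)ᶜ ⊓ φ y ≤ (φ x)ᶜ ⊓ φ x := by
    refine le_inf (inf_le_left.trans inf_le_right) ?_
    refine le_trans ?_ (hφ y x)
    rw [beq_symm y x]
    exact inf_le_inf_right _ inf_le_left
  exact this.trans (by simp)

theorem Ult.forall_iff {B : Type u} [CompleteBooleanAlgebra B] (h : Ult B)
    {φ : BName B → B} (hφ : Ext φ) : h.V (⨅ x, φ x) ↔ ∀ x, h.V (φ x) := by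
  have h1 : (⨅ x, φ x) = (⨆ x, (φ x)ᶜ)ᶜ := by rw [compl_iSup]; simp
  rw [h1, h.compl', h.exists_iff hφ.compl, not_exists]
  refine forall_congr' fun x => ?_
  rw [h.compl', not_not]

section Model

variable {B : Type u} [CompleteBooleanAlgebra B]

/-- The equivalence of names modulo `h`. -/
def Ult.setoid (h : Ult B) : Setoid (BName B) where
  r x y := h.V (beq x y)
  iseqv :=
    { refl := fun x => by rw [beq_refl]; exact h.top'
      symm := fun {x y} hxy => by rw [beq_symm]; exact hxy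
      trans := fun {x y z} hxy hyz =>
        h.mono (beq_trans x y z) ((h.inf' _ _).2 ⟨hxy, hyz⟩) }

/-- The two valued model. -/
def Mdl (h : Ult B) : Type (u + 1) := Quotient h.setoid

/-- The class of a name. -/
def Mdl.mk (h : Ult B) (x : BName B) : Mdl h := Quotient.mk h.setoid x

theorem Mdl.exists_rep {h : Ult B} (m : Mdl h) : ∃ x, Mdl.mk h x = m := Quotient.exists_rep m

theorem Mdl.mk_eq {h : Ult B} {x y : BName B} : Mdl.mk h x = Mdl.mk h y ↔ h.V (beq x y) :=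
  ⟨fun H => Quotient.exact H, fun H => Quotient.sound H⟩

/-- The membership relation of the model. -/
def E (h : Ult B) : Mdl h → Mdl h → Prop :=
  Quotient.lift₂ (fun x y => h.V (bmem x y)) (by
    intro x y x' y' hx hy
    have hx : h.V (beq x x') := hx
    have hy : h.V (beq y y') := hy
    apply propext
    constructor
    · intro H
      have h1 := h.mono (bmem_congr_left x x' y) ((h.inf' _ _).2 ⟨hx, H⟩)
      exact h.mono (bmem_congr_right x' y y') ((h.inf' _ _).2 ⟨hy, h1⟩)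
    · intro H
      rw [beq_symm] at hx hy
      have h1 := h.mono (bmem_congr_left x' x y') ((h.inf' _ _).2 ⟨hx, H⟩)
      exact h.mono (bmem_congr_right x y' y) ((h.inf' _ _).2 ⟨hy, h1⟩))

theorem E_mk {h : Ult B} {x y : BName B} : E h (Mdl.mk h x) (Mdl.mk h y) ↔ h.V (bmem x y) :=
  Iff.rfl

end Model

/-- A set with a `B`-valued equality. -/
class BSet (B : Type u) [CompleteBooleanAlgebra B] (Γ : Type v) where
  /-- the `B`-valued equality -/
  eqv : Γ → Γ → B
  refl : ∀ x, eqv x x = ⊤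
  symm : ∀ x y, eqv x y = eqv y x

section Calc

variable {B : Type u} [CompleteBooleanAlgebra B]

instance : BSet B (BName B) := ⟨beq, beq_refl, beq_symm⟩

instance : BSet B PUnit.{w+1} := ⟨fun _ _ => ⊤, fun _ => rfl, fun _ _ => rfl⟩

instance {Γ : Type v} {Δ : Type w} [BSet B Γ] [BSet B Δ] : BSet B (Γ × Δ) :=
  ⟨fun p q => BSet.eqv p.1 q.1 ⊓ BSet.eqv p.2 q.2,
    fun p => by simp [BSet.refl],
    fun p q => by rw [BSet.symm p.1 q.1, BSet.symm p.2 q.2]⟩


theorem eqv_prod {Γ : Type v} {Δ : Type w} [BSet B Γ] [BSet B Δ] (p q : Γ × Δ) :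
    (BSet.eqv p q : B) = BSet.eqv p.1 q.1 ⊓ BSet.eqv p.2 q.2 := rfl

/-- Uniformly definable predicates. The family is indexed by `j : J`, with ultrafilter `H j`. -/
def BPred {J : Type*} (H : J → Ult B) {Γ : Type v} [BSet B Γ] (P : J → Γ → Prop) : Prop :=
  ∃ φ : Γ → B, (∀ γ γ', BSet.eqv γ γ' ⊓ φ γ ≤ φ γ') ∧ ∀ j γ, P j γ ↔ (H j).V (φ γ)

/-- Terms: nonexpansive maps to names. -/
def BTerm {Γ : Type v} [BSet B Γ] (f : Γ → BName B) : Prop :=
  ∀ γ γ', BSet.eqv γ γ' ≤ beq (f γ) (f γ')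

variable {J : Type*} {H : J → Ult B} {Γ : Type v} [BSet B Γ] {Δ : Type w} [BSet B Δ]

theorem BTerm.const (x : BName B) : BTerm (fun _ : Γ => x) := fun γ γ' => by
  rw [beq_refl]; exact le_top

theorem BTerm.id : BTerm (fun x : BName B => x) := fun γ γ' => le_rfl

theorem BTerm.snd : BTerm (fun p : Γ × BName B => p.2) := fun γ γ' => inf_le_right

theorem BTerm.fst {f : Γ → BName B} (hf : BTerm f) : BTerm (fun p : Γ × Δ => f p.1) :=
  fun γ γ' => inf_le_left.trans (hf _ _)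

theorem BTerm.snd' {f : Δ → BName B} (hf : BTerm f) : BTerm (fun p : Γ × Δ => f p.2) :=
  fun γ γ' => inf_le_right.trans (hf _ _)

theorem BPred.congr {P Q : J → Γ → Prop} (hP : BPred H P) (h : ∀ j γ, Q j γ ↔ P j γ) :
    BPred H Q := by
  obtain ⟨φ, hφ, hφ'⟩ := hP
  exact ⟨φ, hφ, fun j γ => (h j γ).trans (hφ' j γ)⟩

theorem BPred.and {P Q : J → Γ → Prop} (hP : BPred H P) (hQ : BPred H Q) :
    BPred H (fun j γ => P j γ ∧ Q j γ) := by
  obtain ⟨φ, hφ, hφ'⟩ := hP
  obtain ⟨ψ, hψ, hψ'⟩ := hQ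
  refine ⟨fun γ => φ γ ⊓ ψ γ, fun γ γ' => ?_, fun j γ => ?_⟩
  · refine le_inf ?_ ?_
    · exact (inf_le_inf_left _ inf_le_left).trans (hφ γ γ')
    · exact (inf_le_inf_left _ inf_le_right).trans (hψ γ γ')
  · simp only [hφ', hψ', (H j).inf']

theorem compl_ext_aux {e a b : B} (h : e ⊓ b ≤ a) : e ⊓ aᶜ ≤ bᶜ := by
  rw [le_compl_iff_disjoint_right, disjoint_iff_inf_le]
  have : e ⊓ aᶜ ⊓ b ≤ aᶜ ⊓ a := by
    refine le_inf (inf_le_left.trans inf_le_right) (le_trans ?_ h)
    exact inf_le_inf_right _ inf_le_left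
  exact this.trans (by simp)

theorem BPred.not {P : J → Γ → Prop} (hP : BPred H P) :
    BPred H (fun j γ => ¬ P j γ) := by
  obtain ⟨φ, hφ, hφ'⟩ := hP
  refine ⟨fun γ => (φ γ)ᶜ, fun γ γ' => ?_, fun j γ => ?_⟩
  · refine compl_ext_aux ?_
    rw [BSet.symm]
    exact hφ γ' γ
  · simp only [hφ', (H j).compl']

theorem BPred.const (p : Prop) : BPred H (fun (_ : J) (_ : Γ) => p) := by
  classical
  refine ⟨fun _ => if p then ⊤ else ⊥, fun γ γ' => inf_le_right, fun j γ => ?_⟩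
  by_cases hp : p
  · simp only [hp, if_true, true_iff]; exact (H j).top'
  · simp only [hp, if_false, false_iff]; exact (H j).bot

theorem BPred.or {P Q : J → Γ → Prop} (hP : BPred H P) (hQ : BPred H Q) :
    BPred H (fun j γ => P j γ ∨ Q j γ) :=
  (hP.not.and hQ.not).not.congr fun j γ => by tauto

theorem BPred.imp {P Q : J → Γ → Prop} (hP : BPred H P) (hQ : BPred H Q) :
    BPred H (fun j γ => P j γ → Q j γ) :=
  (hP.and hQ.not).not.congr fun j γ => by tauto

theorem BPred.iff {P Q : J → Γ → Prop} (hP : BPred H P) (hQ : BPred H Q) :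
    BPred H (fun j γ => P j γ ↔ Q j γ) :=
  ((hP.imp hQ).and (hQ.imp hP)).congr fun j γ => by tauto

theorem BPred.mem {f g : Γ → BName B} (hf : BTerm f) (hg : BTerm g) :
    BPred H (fun j γ => E (H j) (Mdl.mk _ (f γ)) (Mdl.mk _ (g γ))) := by
  refine ⟨fun γ => bmem (f γ) (g γ), fun γ γ' => ?_, fun j γ => E_mk⟩
  have h1 : BSet.eqv γ γ' ⊓ bmem (f γ) (g γ) ≤ beq (g γ) (g γ') ⊓ bmem (f γ') (g γ) :=
    le_inf (inf_le_left.trans (hg γ γ'))
      ((inf_le_inf_right _ (hf γ γ')).trans (bmem_congr_left _ _ _))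
  exact h1.trans (bmem_congr_right _ _ _)

theorem BPred.eq {f g : Γ → BName B} (hf : BTerm f) (hg : BTerm g) :
    BPred H (fun j γ => Mdl.mk (H j) (f γ) = Mdl.mk (H j) (g γ)) := by
  refine ⟨fun γ => beq (f γ) (g γ), fun γ γ' => ?_, fun j γ => Mdl.mk_eq⟩
  have h1 : BSet.eqv γ γ' ⊓ beq (f γ) (g γ) ≤ beq (f γ') (f γ) ⊓ (beq (f γ) (g γ) ⊓ beq (g γ) (g γ')) := by
    refine le_inf ?_ (le_inf inf_le_right (inf_le_left.trans (hg γ γ')))
    rw [beq_symm (f γ') (f γ)]
    exact inf_le_left.trans (hf γ γ')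
  exact h1.trans ((inf_le_inf_left _ (beq_trans _ _ _)).trans (beq_trans _ _ _))

theorem BPred.comp {P : J → Γ → Prop} (hP : BPred H P) {f : Δ → Γ}
    (hf : ∀ γ γ', (BSet.eqv γ γ' : B) ≤ BSet.eqv (f γ) (f γ')) :
    BPred H (fun j γ => P j (f γ)) := by
  obtain ⟨φ, hφ, hφ'⟩ := hP
  exact ⟨fun γ => φ (f γ), fun γ γ' => (inf_le_inf_right _ (hf γ γ')).trans (hφ _ _),
    fun j γ => hφ' j (f γ)⟩

theorem BPred.ex {Q : (j : J) → Γ → Mdl (H j) → Prop}
    (hQ : BPred H (fun j (p : Γ × BName B) => Q j p.1 (Mdl.mk _ p.2))) :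
    BPred H (fun j γ => ∃ x, Q j γ x) := by
  obtain ⟨φ, hφ, hφ'⟩ := hQ
  refine ⟨fun γ => ⨆ x, φ (γ, x), fun γ γ' => ?_, fun j γ => ?_⟩
  · rw [inf_iSup_eq]
    refine iSup_mono fun x => le_trans ?_ (hφ (γ, x) (γ', x))
    refine inf_le_inf_right _ (le_inf le_rfl ?_)
    change _ ≤ beq x x
    rw [beq_refl]; exact le_top
  · have hext : BName.Ext (fun x => φ (γ, x)) := fun x y => by
      refine le_trans ?_ (hφ (γ, x) (γ, y))
      refine inf_le_inf_right _ (le_inf ?_ le_rfl)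
      change _ ≤ BSet.eqv γ γ
      rw [BSet.refl]; exact le_top
    rw [(H j).exists_iff hext]
    constructor
    · rintro ⟨m, hm⟩
      obtain ⟨x, rfl⟩ := m.exists_rep
      exact ⟨x, (hφ' j (γ, x)).1 hm⟩
    · rintro ⟨x, hx⟩
      exact ⟨Mdl.mk _ x, (hφ' j (γ, x)).2 hx⟩

theorem BPred.all {Q : (j : J) → Γ → Mdl (H j) → Prop}
    (hQ : BPred H (fun j (p : Γ × BName B) => Q j p.1 (Mdl.mk _ p.2))) :
    BPred H (fun j γ => ∀ x, Q j γ x) :=
  (BPred.ex (Q := fun j γ x => ¬ Q j γ x) hQ.not).not.congr fun j γ => by simp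

end Calc

end Pool.Agent.BVM
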