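import Mathlib

/-! First order models of ZFC. -/

namespace Pool.Agent.SetModel

universe u

/-- The relation symbols of the language of set theory: one binary symbol. -/
inductive MemRel : ℕ → Type
  | mem : MemRel 2

/-- The first order language of set theory. -/
def memLang : FirstOrder.Language := ⟨fun _ => Empty, MemRel⟩

/-- The structure for `memLang` given by a binary relation `E`. -/
@[reducible]
def memStructure {M : Type u} (E : M → M → Prop) : memLang.Structure M where
  funMap := fun f => f.elim
  RelMap := fun r xs =>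
    match r, xs with
    | .mem, xs => E (xs 0) (xs 1)

/-- A unary relation on `M` is definable if it is given by a first order formula of the language
of set theory, with parameters from `M`. -/
def Def₁ {M : Type u} (E : M → M → Prop) (D : M → Prop) : Prop :=
  letI := memStructure E
  (Set.univ : Set M).Definable₁ memLang {x | D x}

/-- A binary relation on `M` is definable if it is given by a first order formula of the language
of set theory, with parameters from `M`. -/
def Def₂ {M : Type u} (E : M → M → Prop) (R : M → M → Prop) : Prop :=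
  letI := memStructure E
  (Set.univ : Set M).Definable₂ memLang {p | R p.1 p.2}

/-- `(M, E)` is a model of ZFC. -/
structure IsModelZFC {M : Type u} (E : M → M → Prop) : Prop where
  extensionality : ∀ x y, (∀ z, E z x ↔ E z y) → x = y
  foundation : ∀ x, (∃ y, E y x) → ∃ y, E y x ∧ ∀ z, E z y → ¬ E z x
  pairing : ∀ a b, ∃ p, ∀ z, E z p ↔ z = a ∨ z = b
  union : ∀ x, ∃ u, ∀ z, E z u ↔ ∃ y, E y x ∧ E z y
  powerset : ∀ x, ∃ p, ∀ z, E z p ↔ ∀ w, E w z → E w x
  infinity : ∃ w, (∃ e, (∀ z, ¬ E z e) ∧ E e w) ∧
    ∀ x, E x w → ∃ y, E y w ∧ ∀ z, E z y ↔ E z x ∨ z = x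
  separation : ∀ D : M → Prop, Def₁ E D → ∀ x, ∃ y, ∀ z, E z y ↔ E z x ∧ D z
  replacement : ∀ R : M → M → Prop, Def₂ E R → ∀ x, (∀ y, E y x → ∃! z, R y z) →
    ∃ w, ∀ z, E z w ↔ ∃ y, E y x ∧ R y z
  choice : ∀ x, (∀ y, E y x → ∃ z, E z y) →
    (∀ y y', E y x → E y' x → y ≠ y' → ¬ ∃ z, E z y ∧ E z y') →
    ∃ c, ∀ y, E y x → ∃! z, E z y ∧ E z c

end Pool.Agent.SetModel
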