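import Pool.Agent.Lib.helper63.Ult
import Pool.Agent.Lib.helper63.ZFCDef

set_option linter.unusedVariables false

namespace Pool.Agent.BVM

universe u v w

open BName SetModel

variable {B : Type u} [CompleteBooleanAlgebra B]

instance funBSet {β : Type v} : BSet B (β → BName B) :=
  ⟨fun p q => ⨅ i, beq (p i) (q i), fun p => by simp [beq_refl],
    fun p q => by simp only [beq_symm]⟩

section Formula

open FirstOrder FirstOrder.Language

variable {J : Type*} (H : J → Ult B)

theorem bterm_val {β : Type v} {n : ℕ} (t : memLang.Term (β ⊕ Fin n)) :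
    ∃ f : (β → BName B) × (Fin n → BName B) → BName B, BTerm f ∧
      ∀ j γ, letI := memStructure (E (H j));
        t.realize (Sum.elim (fun b => Mdl.mk (H j) (γ.1 b)) (fun i => Mdl.mk (H j) (γ.2 i))) =
          Mdl.mk (H j) (f γ) := by
  cases t with
  | var a =>
    cases a with
    | inl b => exact ⟨fun γ => γ.1 b, fun γ γ' => inf_le_left.trans (iInf_le _ b), fun j γ => rfl⟩
    | inr i => exact ⟨fun γ => γ.2 i, fun γ γ' => inf_le_right.trans (iInf_le _ i), fun j γ => rfl⟩
  | func f _ => exact f.elim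

theorem bpred_realize {β : Type v} {n : ℕ} (φ : memLang.BoundedFormula β n) :
    BPred H (fun j (γ : (β → BName B) × (Fin n → BName B)) =>
      letI := memStructure (E (H j));
      φ.Realize (fun b => Mdl.mk (H j) (γ.1 b)) (fun i => Mdl.mk (H j) (γ.2 i))) := by
  induction φ with
  | falsum => exact (BPred.const False).congr fun j γ => Iff.rfl
  | equal t₁ t₂ =>
    obtain ⟨f, hf, hf'⟩ := bterm_val H t₁
    obtain ⟨g, hg, hg'⟩ := bterm_val H t₂
    refine (BPred.eq hf hg).congr fun j γ => ?_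
    rw [← hf' j γ, ← hg' j γ]
    exact Iff.rfl
  | rel R ts =>
    cases R with
    | mem =>
      obtain ⟨f, hf, hf'⟩ := bterm_val H (ts 0)
      obtain ⟨g, hg, hg'⟩ := bterm_val H (ts 1)
      refine (BPred.mem hf hg).congr fun j γ => ?_
      rw [← hf' j γ, ← hg' j γ]
      exact Iff.rfl
  | imp φ ψ ih1 ih2 => exact (ih1.imp ih2).congr fun j γ => Iff.rfl
  | all φ ih =>
    rename_i n
    have h1 := BPred.comp (Δ := ((β → BName B) × (Fin n → BName B)) × BName B) ih
      (f := fun p => (p.1.1, Fin.snoc p.1.2 p.2)) (by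
        intro p q
        refine le_inf (inf_le_left.trans inf_le_left) (le_iInf fun i => ?_)
        refine Fin.lastCases ?_ (fun i => ?_) i
        · simp only [Fin.snoc_last]
          exact inf_le_right
        · simp only [Fin.snoc_castSucc]
          exact inf_le_left.trans (inf_le_right.trans (iInf_le _ i)))
    refine (BPred.all (Q := fun j γ x => letI := memStructure (E (H j));
      φ.Realize (fun b => Mdl.mk (H j) (γ.1 b)) (Fin.snoc (fun i => Mdl.mk (H j) (γ.2 i)) x))
      (h1.congr fun j γ => ?_)).congr fun j γ => Iff.rfl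
    have : (Fin.snoc (fun i => Mdl.mk (H j) (γ.1.2 i)) (Mdl.mk (H j) γ.2) : Fin (n+1) → Mdl (H j)) =
        fun i => Mdl.mk (H j) ((Fin.snoc γ.1.2 γ.2 : Fin (n+1) → BName B) i) := by
      funext i
      refine Fin.lastCases ?_ (fun i => ?_) i
      · simp only [Fin.snoc_last]
      · simp only [Fin.snoc_castSucc]
    simp only [this]


theorem def₁_bpred {h : Ult B} {D : Mdl h → Prop} (hD : Def₁ (E h) D) :
    BPred (fun _ : Unit => h) (fun _ (x : BName B) => D (Mdl.mk h x)) := by
  let _ := memStructure (E h)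
  have hD' : (Set.univ : Set (Mdl h)).Definable memLang {x : Fin 1 → Mdl h | x 0 ∈ {x | D x}} := hD
  rw [Set.definable_iff_exists_formula_sum] at hD'
  obtain ⟨φ, hφ⟩ := hD'
  choose par hpar using fun a : (Set.univ : Set (Mdl h)) => a.1.exists_rep
  have h1 := BPred.comp (Δ := BName B) (bpred_realize (fun _ : Unit => h) φ)
    (f := fun x => (Sum.elim par (fun _ => x), Fin.elim0)) (by
      intro p q
      refine le_inf (le_iInf fun i => ?_) (le_iInf fun i => i.elim0)
      rcases i with i | i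
      · simp only [Sum.elim_inl, beq_refl]
        exact le_top
      · simp only [Sum.elim_inr]
        exact le_rfl)
  refine h1.congr fun j x => ?_
  have h2 : (fun _ : Fin 1 => Mdl.mk h x) ∈ {x : Fin 1 → Mdl h | x 0 ∈ {x | D x}} ↔
      (fun _ : Fin 1 => Mdl.mk h x) ∈ {v | φ.Realize (Sum.elim (↑) v)} := by rw [hφ]
  refine Iff.trans h2 ?_
  change φ.Realize (Sum.elim (↑) (fun _ : Fin 1 => Mdl.mk h x)) ↔
    BoundedFormula.Realize φ (fun b => Mdl.mk h (Sum.elim par (fun _ => x) b))
      (fun i => Mdl.mk h (Fin.elim0 i))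
  have h3 : (Sum.elim (↑) (fun _ : Fin 1 => Mdl.mk h x) : (Set.univ : Set (Mdl h)) ⊕ Fin 1 → Mdl h) =
      (fun b => Mdl.mk h (Sum.elim par (fun _ => x) b)) := by
    funext b
    rcases b with b | b
    · simp only [Sum.elim_inl, hpar]
    · simp only [Sum.elim_inr]
  have h4 : (fun i : Fin 0 => Mdl.mk h (Fin.elim0 i)) = default := by
    funext i; exact i.elim0
  rw [h3, h4]
  exact Iff.rfl

theorem def₂_bpred {h : Ult B} {R : Mdl h → Mdl h → Prop} (hR : Def₂ (E h) R) :
    BPred (fun _ : Unit => h)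
      (fun _ (p : BName B × BName B) => R (Mdl.mk h p.1) (Mdl.mk h p.2)) := by
  let _ := memStructure (E h)
  have hD' : (Set.univ : Set (Mdl h)).Definable memLang
      {x : Fin 2 → Mdl h | (x 0, x 1) ∈ {p : Mdl h × Mdl h | R p.1 p.2}} := hR
  rw [Set.definable_iff_exists_formula_sum] at hD'
  obtain ⟨φ, hφ⟩ := hD'
  choose par hpar using fun a : (Set.univ : Set (Mdl h)) => a.1.exists_rep
  have h1 := BPred.comp (Δ := BName B × BName B) (bpred_realize (fun _ : Unit => h) φ)
    (f := fun p => (Sum.elim par ![p.1, p.2], Fin.elim0)) (by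
      intro p q
      refine le_inf (le_iInf fun i => ?_) (le_iInf fun i => i.elim0)
      rcases i with i | i
      · simp only [Sum.elim_inl, beq_refl]
        exact le_top
      · simp only [Sum.elim_inr]
        fin_cases i
        · exact inf_le_left
        · exact inf_le_right)
  refine h1.congr fun j x => ?_
  have h2 : (![Mdl.mk h x.1, Mdl.mk h x.2]) ∈
        {x : Fin 2 → Mdl h | (x 0, x 1) ∈ {p : Mdl h × Mdl h | R p.1 p.2}} ↔
      (![Mdl.mk h x.1, Mdl.mk h x.2]) ∈ {v | φ.Realize (Sum.elim (↑) v)} := by rw [hφ]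
  refine Iff.trans h2 ?_
  change φ.Realize (Sum.elim (↑) (![Mdl.mk h x.1, Mdl.mk h x.2])) ↔
    BoundedFormula.Realize φ (fun b => Mdl.mk h (Sum.elim par ![x.1, x.2] b))
      (fun i => Mdl.mk h (Fin.elim0 i))
  have h3 : (Sum.elim (↑) (![Mdl.mk h x.1, Mdl.mk h x.2]) :
        (Set.univ : Set (Mdl h)) ⊕ Fin 2 → Mdl h) =
      (fun b => Mdl.mk h (Sum.elim par ![x.1, x.2] b)) := by
    funext b
    rcases b with b | b
    · simp only [Sum.elim_inl, hpar]
    · simp only [Sum.elim_inr]
      fin_cases b <;> rfl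
  have h4 : (fun i : Fin 0 => Mdl.mk h (Fin.elim0 i)) = default := by
    funext i; exact i.elim0
  rw [h3, h4]
  exact Iff.rfl

end Formula

/-! ### Axioms -/

section Axioms

variable {J : Type*} {H : J → Ult B} {h : Ult B}

theorem Mdl.ext {x y : Mdl h} (hxy : ∀ z, E h z x ↔ E h z y) : x = y := by
  obtain ⟨x, rfl⟩ := x.exists_rep
  obtain ⟨y, rfl⟩ := y.exists_rep
  rw [Mdl.mk_eq, beq_eq_iff]
  have hext : Ext fun z => (bmem z x ⇨ bmem z y) ⊓ (bmem z y ⇨ bmem z x) := by
    obtain ⟨φ, hφ, hφ'⟩ := (BPred.iff (H := fun h : Ult B => h)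
      (BPred.mem BTerm.id (BTerm.const x)) (BPred.mem BTerm.id (BTerm.const y)))
    have : (fun z => (bmem z x ⇨ bmem z y) ⊓ (bmem z y ⇨ bmem z x)) = φ := by
      funext z
      refine le_antisymm (Ult.le_iff.2 fun h hh => ?_) (Ult.le_iff.2 fun h hh => ?_)
      · rw [← hφ' h z]
        rw [h.inf', h.himp, h.himp] at hh
        exact ⟨hh.1, hh.2⟩
      · rw [← hφ' h z] at hh
        rw [h.inf', h.himp, h.himp]
        exact ⟨hh.1, hh.2⟩
    rw [this]
    exact hφ
  rw [h.forall_iff hext]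
  intro z
  rw [h.inf', h.himp, h.himp]
  exact ⟨(hxy (Mdl.mk h z)).1, (hxy (Mdl.mk h z)).2⟩

/-- Separation in uniform form. -/
theorem separation_name {D : (j : J) → Mdl (H j) → Prop}
    (hD : BPred H (fun j (x : BName B) => D j (Mdl.mk _ x))) (x : BName B) :
    ∃ y : BName B, ∀ j z, E (H j) z (Mdl.mk _ y) ↔ E (H j) z (Mdl.mk _ x) ∧ D j z := by
  obtain ⟨φ, hφ, hφ'⟩ := hD
  refine ⟨BName.mk x.Idx x.fam (fun i => x.coe i ⊓ φ (x.fam i)), fun j z => ?_⟩
  obtain ⟨z, rfl⟩ := z.exists_rep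
  rw [E_mk, E_mk, show D j (Mdl.mk (H j) z) ↔ (H j).V (φ z) from hφ' j z, ← (H j).inf']
  have : bmem z (BName.mk x.Idx x.fam (fun i => x.coe i ⊓ φ (x.fam i))) = bmem z x ⊓ φ z := by
    rw [bmem_mk, bmem_eq]
    apply le_antisymm
    · refine iSup_le fun i => le_inf (le_iSup_of_le i ?_) ?_
      · exact inf_le_inf_right _ inf_le_left
      · refine le_trans ?_ (hφ (x.fam i) z)
        refine le_inf ?_ (inf_le_left.trans inf_le_right)
        change _ ≤ beq (x.fam i) z
        rw [beq_symm]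
        exact inf_le_right
    · rw [iSup_inf_eq]
      refine iSup_mono fun i => le_inf (le_inf (inf_le_left.trans inf_le_left) ?_)
        (inf_le_left.trans inf_le_right)
      exact (inf_le_inf_right _ inf_le_right).trans (hφ z (x.fam i))
  rw [this]

/-- Collection in uniform form. -/
theorem collection_name {R : (j : J) → Mdl (H j) → Mdl (H j) → Prop}
    (hR : BPred H (fun j (p : BName B × BName B) => R j (Mdl.mk _ p.1) (Mdl.mk _ p.2)))
    (x : BName B) :
    ∃ w : BName B, ∀ j y, E (H j) y (Mdl.mk _ x) → (∃ z, R j y z) →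
      ∃ z, E (H j) z (Mdl.mk _ w) ∧ R j y z := by
  obtain ⟨φ, hφ, hφ'⟩ := hR
  have hext1 : ∀ y, Ext (fun z => φ (y, z)) := fun y z z' => by
    refine le_trans ?_ (hφ (y, z) (y, z'))
    refine inf_le_inf_right _ (le_inf ?_ le_rfl)
    change _ ≤ beq y y
    rw [beq_refl]; exact le_top
  have hext2 : ∀ z, Ext (fun y => φ (y, z)) := fun z y y' => by
    refine le_trans ?_ (hφ (y, z) (y', z))
    refine inf_le_inf_right _ (le_inf le_rfl ?_)
    change _ ≤ beq z z
    rw [beq_refl]; exact le_top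
  choose f hf using fun i : x.Idx => exists_max (hext1 (x.fam i))
  set W : BName B := BName.mk x.Idx f (fun _ => ⊤) with hW
  refine ⟨W, ?_⟩
  intro j y hy hz
  obtain ⟨y, rfl⟩ := y.exists_rep
  obtain ⟨z, hz⟩ := hz
  obtain ⟨z, rfl⟩ := z.exists_rep
  rw [E_mk] at hy
  replace hz : (H j).V (φ (y, z)) := (hφ' j (y, z)).1 hz
  have hext3 : Ext (fun z => bmem z W ⊓ φ (y, z)) := fun a b => by
    refine le_inf ?_ ?_
    · exact (inf_le_inf_left _ inf_le_left).trans (bmem_congr_left a b W)
    · exact (inf_le_inf_left _ inf_le_right).trans (hext1 y a b)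
  have key : bmem y x ⊓ φ (y, z) ≤ ⨆ z, bmem z W ⊓ φ (y, z) := by
    rw [bmem_eq, iSup_inf_eq]
    refine iSup_le fun i => ?_
    refine le_iSup_of_le (f i) (le_inf ?_ ?_)
    · have := coe_le_bmem W i
      exact le_top.trans this
    · have h1 : x.coe i ⊓ beq y (x.fam i) ⊓ φ (y, z) ≤ beq (x.fam i) y ⊓ φ (x.fam i, z) := by
        refine le_inf ?_ ?_
        · rw [beq_symm]; exact inf_le_left.trans inf_le_right
        · exact (inf_le_inf_right _ inf_le_right).trans (hext2 z y _)
      refine h1.trans (le_trans ?_ (hext2 (f i) (x.fam i) y))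
      refine inf_le_inf_left _ ?_
      change φ (x.fam i, z) ≤ φ (x.fam i, f i)
      rw [hf i]
      exact le_iSup (fun z => φ (x.fam i, z)) z
  have h2 := (H j).mono key ((H j).inf' _ _ |>.2 ⟨hy, hz⟩)
  rw [(H j).exists_iff hext3] at h2
  obtain ⟨z', hz'⟩ := h2
  rw [(H j).inf'] at hz'
  exact ⟨Mdl.mk _ z', hz'.1, (hφ' j (y, z')).2 hz'.2⟩


/-- Every set of names is the set of elements of a name with full coefficients. -/
theorem bmem_full {ι : Type u} (a : ι → BName B) (x : BName B) :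
    bmem x (BName.mk ι a (fun _ => ⊤)) = ⨆ i, beq x (a i) := by
  rw [bmem_mk]; simp

/-- Pairing name. -/
def upair (a b : BName B) : BName B :=
  BName.mk (ULift.{u} Bool) (fun i => cond i.down a b) (fun _ => ⊤)

theorem bmem_upair (a b x : BName B) : bmem x (upair a b) = beq x a ⊔ beq x b := by
  rw [upair, bmem_full]
  apply le_antisymm
  · refine iSup_le fun i => ?_
    obtain ⟨i⟩ := i
    cases i
    · exact le_sup_right
    · exact le_sup_left
  · refine sup_le ?_ ?_
    · exact le_iSup (fun i : ULift.{u} Bool => beq x (cond i.down a b)) ⟨true⟩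
    · exact le_iSup (fun i : ULift.{u} Bool => beq x (cond i.down a b)) ⟨false⟩

theorem E_upair (h : Ult B) (a b : BName B) (z : Mdl h) :
    E h z (Mdl.mk h (upair a b)) ↔ z = Mdl.mk h a ∨ z = Mdl.mk h b := by
  obtain ⟨z, rfl⟩ := z.exists_rep
  rw [E_mk, bmem_upair, h.sup, Mdl.mk_eq, Mdl.mk_eq]

theorem bterm_upair {Γ : Type v} [BSet B Γ] {f g : Γ → BName B} (hf : BTerm f) (hg : BTerm g) :
    BTerm (fun γ => upair (f γ) (g γ)) := by
  intro γ γ'
  rw [Ult.le_iff]
  intro h hh
  have h1 : Mdl.mk h (f γ) = Mdl.mk h (f γ') := Mdl.mk_eq.2 (h.mono (hf γ γ') hh)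
  have h2 : Mdl.mk h (g γ) = Mdl.mk h (g γ') := Mdl.mk_eq.2 (h.mono (hg γ γ') hh)
  rw [← Mdl.mk_eq]
  apply Mdl.ext
  intro z
  rw [E_upair, E_upair, h1, h2]

/-- Union name. -/
def sunion (x : BName B) : BName B :=
  BName.mk (Σ i : x.Idx, (x.fam i).Idx) (fun p => (x.fam p.1).fam p.2)
    (fun p => x.coe p.1 ⊓ (x.fam p.1).coe p.2)

theorem bmem_sunion (x z : BName B) : bmem z (sunion x) = ⨆ y, bmem y x ⊓ bmem z y := by
  rw [bex_eq (ext_bmem_right z), sunion, bmem_mk]
  apply le_antisymm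
  · refine iSup_le fun p => le_iSup_of_le p.1 (le_inf (inf_le_left.trans inf_le_left) ?_)
    rw [bmem_eq]
    refine le_iSup_of_le p.2 (le_inf (inf_le_left.trans inf_le_right) inf_le_right)
  · refine iSup_le fun i => ?_
    rw [bmem_eq, inf_iSup_eq]
    refine iSup_le fun j => le_iSup_of_le ⟨i, j⟩ ?_
    exact le_inf (le_inf inf_le_left (inf_le_right.trans inf_le_left))
      (inf_le_right.trans inf_le_right)

theorem E_sunion (h : Ult B) (x : BName B) (z : Mdl h) :
    E h z (Mdl.mk h (sunion x)) ↔ ∃ y, E h y (Mdl.mk h x) ∧ E h z y := by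
  obtain ⟨z, rfl⟩ := z.exists_rep
  rw [E_mk, bmem_sunion, h.exists_iff]
  · constructor
    · rintro ⟨y, hy⟩
      rw [h.inf'] at hy
      exact ⟨Mdl.mk h y, hy.1, hy.2⟩
    · rintro ⟨y, hy⟩
      obtain ⟨y, rfl⟩ := y.exists_rep
      exact ⟨y, (h.inf' _ _).2 hy⟩
  · intro y y'
    exact le_inf ((inf_le_inf_left _ inf_le_left).trans (bmem_congr_left _ _ _))
      ((inf_le_inf_left _ inf_le_right).trans (bmem_congr_right _ _ _))

/-- A name whose elements include all subsets of `x`. -/
def spow (x : BName B) : BName B :=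
  BName.mk (x.Idx → B) (fun f => BName.mk x.Idx x.fam f) (fun _ => ⊤)

theorem subset_mem_spow (h : Ult B) (x : BName B) (z : Mdl h)
    (hz : ∀ w, E h w z → E h w (Mdl.mk h x)) : E h z (Mdl.mk h (spow x)) := by
  obtain ⟨z, rfl⟩ := z.exists_rep
  have h1 : (Mdl.mk h z : Mdl h) = Mdl.mk h (BName.mk x.Idx x.fam (fun i => bmem (x.fam i) z)) := by
    apply Mdl.ext
    intro w
    obtain ⟨w, rfl⟩ := w.exists_rep
    constructor
    · intro hw
      have hw2 := hz _ hw
      rw [E_mk] at hw hw2 ⊢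
      have : bmem w z ⊓ bmem w x ≤ bmem w (BName.mk x.Idx x.fam (fun i => bmem (x.fam i) z)) := by
        rw [bmem_eq w x, inf_iSup_eq, bmem_mk]
        refine iSup_mono fun i => le_inf ?_ (inf_le_right.trans inf_le_right)
        refine le_trans ?_ (bmem_congr_left w (x.fam i) z)
        exact le_inf (inf_le_right.trans inf_le_right) inf_le_left
      exact h.mono this ((h.inf' _ _).2 ⟨hw, hw2⟩)
    · intro hw
      rw [E_mk] at hw ⊢
      refine h.mono ?_ hw
      rw [bmem_mk]
      refine iSup_le fun i => ?_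
      refine le_trans ?_ (bmem_congr_left (x.fam i) w z)
      rw [beq_symm (x.fam i) w, inf_comm]
  rw [h1, E_mk, spow, bmem_full]
  refine h.iSup_of _ (fun i => bmem (x.fam i) z) ?_
  rw [beq_refl]
  exact h.top'

end Axioms

end Pool.Agent.BVM
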