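import Pool.Agent.Lib.helper63.ZFC

set_option linter.unusedVariables false

namespace Pool.Agent.BVM

universe u v w

open BName SetModel

variable {B : Type u} [CompleteBooleanAlgebra B] {h : Ult B}

/-- Foundation. -/
theorem foundation (x : Mdl h) (hx : ∃ y, E h y x) :
    ∃ y, E h y x ∧ ∀ z, E h z y → ¬ E h z x := by
  obtain ⟨x, rfl⟩ := x.exists_rep
  have hP : BPred (fun h : Ult B => h) (fun h (y : BName B) =>
      E h (Mdl.mk h y) (Mdl.mk h x) ∧ ∀ z, E h z (Mdl.mk h y) → ¬ E h z (Mdl.mk h x)) :=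
    (BPred.mem BTerm.id (BTerm.const x)).and
      (BPred.all (Q := fun h y z => E h z (Mdl.mk h y) → ¬ E h z (Mdl.mk h x))
        ((BPred.mem BTerm.snd BTerm.id.fst).imp (BPred.mem BTerm.snd (BTerm.const x)).not))
  obtain ⟨φ, hφ, hφ'⟩ := hP
  set m : B := ⨆ y, φ y with hm
  have key : ∀ y : BName B, bmem y x ≤ m := by
    intro y
    induction y with
    | mk ι a b ih =>
      set y : BName B := BName.mk ι a b
      have h1 : bmem y x ⊓ mᶜ ≤ φ y := by
        have h2 : bmem y x ⊓ mᶜ ≤ bmem y x ⊓ ⨅ z, (bmem z y ⇨ (bmem z x)ᶜ) := by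
          refine inf_le_inf_left _ ?_
          rw [ball_eq ((ext_bmem_left x).compl)]
          refine le_iInf fun i => ?_
          rw [le_himp_iff]
          refine inf_le_left.trans ?_
          exact compl_le_compl (ih i)
        refine h2.trans (Ult.le_iff.2 fun h' hh => ?_)
        rw [h'.inf'] at hh
        rw [← hφ' h' y]
        refine ⟨hh.1, fun z hz => ?_⟩
        obtain ⟨z, rfl⟩ := z.exists_rep
        have h3 := h'.iInf_at _ z hh.2
        rw [h'.himp, h'.compl'] at h3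
        exact h3 hz
      have h3 : bmem y x ⊓ mᶜ ≤ ⊥ := by
        have : bmem y x ⊓ mᶜ ≤ m ⊓ mᶜ := le_inf (h1.trans (le_iSup φ y)) inf_le_right
        exact this.trans (by simp)
      have h4 := le_compl_iff_disjoint_right.2 (disjoint_iff_inf_le.2 h3)
      rwa [compl_compl] at h4
  obtain ⟨y, hy⟩ := hx
  obtain ⟨y, rfl⟩ := y.exists_rep
  have h5 : h.V m := h.mono (key y) hy
  rw [hm, h.exists_iff hφ] at h5
  obtain ⟨y', hy'⟩ := h5
  exact ⟨Mdl.mk h y', (hφ' h y').2 hy'⟩

/-- The full-coefficients name is nonempty etc. `vN` are the von Neumann names of the elements of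
a well order. -/
noncomputable def vN {α : Type u} [LinearOrder α] [WellFoundedLT α] : α → BName B :=
  WellFounded.fix (C := fun _ => BName B) (wellFounded_lt (α := α))
    (fun a ih => BName.mk {b : α // b < a} (fun b => ih b.1 b.2) (fun _ => ⊤))

theorem vN_eq {α : Type u} [LinearOrder α] [WellFoundedLT α] (a : α) :
    (vN a : BName B) = BName.mk {b : α // b < a} (fun b => vN b.1) (fun _ => ⊤) := by
  rw [vN, WellFounded.fix_eq]

/-- The name of the well order itself. -/
noncomputable def vNset (B : Type u) [CompleteBooleanAlgebra B] (α : Type u) [LinearOrder α]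
    [WellFoundedLT α] : BName B :=
  BName.mk α vN (fun _ => ⊤)

section vN

variable {α : Type u} [LinearOrder α] [WellFoundedLT α]

theorem bmem_vN (x : BName B) (a : α) : bmem x (vN a) = ⨆ b : {b : α // b < a}, beq x (vN b.1) := by
  rw [vN_eq, bmem_full]

theorem bmem_vNset (x : BName B) : bmem x (vNset B α) = ⨆ b : α, beq x (vN b) := by
  rw [vNset, bmem_full]

theorem bmem_vN_lt {a b : α} (hab : a < b) : bmem (vN a : BName B) (vN b) = ⊤ := by
  rw [bmem_vN, eq_top_iff]
  refine le_iSup_of_le ⟨a, hab⟩ ?_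
  rw [beq_refl]

theorem bmem_vN_self (a : α) : bmem (vN a : BName B) (vN a) = ⊥ := by
  induction a using (wellFounded_lt (α := α)).induction with
  | _ a ih =>
    rw [bmem_vN, ← le_bot_iff]
    refine iSup_le fun c => ?_
    rw [← ih c.1 c.2]
    have := bmem_congr_right (vN c.1 : BName B) (vN a) (vN c.1)
    rwa [bmem_vN_lt c.2, inf_top_eq] at this

theorem beq_vN_lt {a b : α} (hab : a < b) : beq (vN a : BName B) (vN b) = ⊥ := by
  rw [← le_bot_iff, ← bmem_vN_self a, beq_symm]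
  have := bmem_congr_right (vN a : BName B) (vN b) (vN a)
  rwa [bmem_vN_lt hab, inf_top_eq] at this

theorem beq_vN_ne {a b : α} (hab : a ≠ b) : beq (vN a : BName B) (vN b) = ⊥ := by
  rcases lt_or_gt_of_ne hab with h | h
  · exact beq_vN_lt h
  · rw [beq_symm]; exact beq_vN_lt h

theorem bmem_vN_not {a b : α} (hab : ¬ a < b) : bmem (vN a : BName B) (vN b) = ⊥ := by
  rw [bmem_vN, ← le_bot_iff]
  refine iSup_le fun c => ?_
  rw [beq_vN_ne]
  rintro rfl
  exact hab c.2

theorem vN_inj {a b : α} : Mdl.mk h (vN a) = Mdl.mk h (vN b) ↔ a = b := by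
  constructor
  · intro H
    by_contra hab
    rw [Mdl.mk_eq, beq_vN_ne hab] at H
    exact h.bot H
  · rintro rfl; rfl

theorem E_vN_vN {a b : α} : E h (Mdl.mk h (vN a)) (Mdl.mk h (vN b)) ↔ a < b := by
  rw [E_mk]
  by_cases hab : a < b
  · simp only [bmem_vN_lt hab, hab, iff_true]; exact h.top'
  · simp only [bmem_vN_not hab, hab, iff_false]; exact h.bot

theorem E_vN_vNset (a : α) : E h (Mdl.mk h (vN a)) (Mdl.mk h (vNset B α)) := by
  rw [E_mk, bmem_vNset]
  refine h.iSup_of _ a ?_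
  rw [beq_refl]; exact h.top'

end vN

/-- Induction principle for membership in a name with full coefficients. -/
theorem forall_full {ι : Type u} (e : ι → BName B) {P : (h : Ult B) → Mdl h → Prop}
    (hP : BPred (fun h : Ult B => h) (fun h (x : BName B) => P h (Mdl.mk h x))) (b : B)
    (H : ∀ h : Ult B, h.V b → ∀ i, P h (Mdl.mk h (e i))) :
    ∀ h : Ult B, h.V b → ∀ z, E h z (Mdl.mk h (BName.mk ι e (fun _ => ⊤))) → P h z := by
  obtain ⟨φ, hφ, hφ'⟩ := hP
  have h1 : ∀ i, b ≤ φ (e i) := fun i => Ult.le_iff.2 fun h hb => (hφ' h (e i)).1 (H h hb i)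
  intro h hb z hz
  obtain ⟨z, rfl⟩ := z.exists_rep
  refine (hφ' h z).2 ?_
  rw [E_mk, bmem_full] at hz
  have h2 : (⨆ i, beq z (e i)) ⊓ b ≤ φ z := by
    rw [iSup_inf_eq]
    refine iSup_le fun i => le_trans ?_ (hφ (e i) z)
    change _ ≤ beq (e i) z ⊓ φ (e i)
    rw [beq_symm]
    exact inf_le_inf_left _ (h1 i)
  exact h.mono h2 ((h.inf' _ _).2 ⟨hz, hb⟩)

/-- A statement about all the models which is given by an element of `B`. -/
def Clop (P : Ult B → Prop) : Prop := ∃ b : B, ∀ h : Ult B, P h ↔ h.V b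

/-- The Boolean value of a statement. -/
noncomputable def bval (P : Ult B → Prop) : B := sSup {b | ∀ h : Ult B, h.V b → P h}

theorem Clop.iff {P : Ult B → Prop} (hP : Clop P) (h : Ult B) : P h ↔ h.V (bval P) := by
  obtain ⟨b, hb⟩ := hP
  have : bval P = b := by
    apply le_antisymm
    · refine sSup_le fun c hc => Ult.le_iff.2 fun h' h1 => (hb h').1 (hc h' h1)
    · exact le_sSup fun h' h1 => (hb h').2 h1
  rw [this]; exact hb h

theorem Clop.le_bval {P : Ult B → Prop} {b : B} (H : ∀ h : Ult B, h.V b → P h) :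
    b ≤ bval P := le_sSup H

theorem BPred.clop {Γ : Type v} [BSet B Γ] {P : Ult B → Γ → Prop}
    (hP : BPred (fun h : Ult B => h) P) (γ : Γ) : Clop (fun h => P h γ) := by
  obtain ⟨φ, hφ, hφ'⟩ := hP
  exact ⟨φ γ, fun h => hφ' h γ⟩

theorem exists_full {ι : Type u} (e : ι → BName B) {P : (h : Ult B) → Mdl h → Prop}
    (hP : BPred (fun h : Ult B => h) (fun h (x : BName B) => P h (Mdl.mk h x))) {b : B}
    (H : ∀ h : Ult B, h.V b →
      ∃ z, E h z (Mdl.mk h (BName.mk ι e (fun _ => ⊤))) ∧ P h z) :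
    b ≤ ⨆ i, bval (fun h => P h (Mdl.mk h (e i))) := by
  set c : B := ⨆ i, bval (fun h => P h (Mdl.mk h (e i))) with hc
  have hb : b ⊓ cᶜ = ⊥ := by
    by_contra hne
    obtain ⟨h, hh⟩ := Ult.exists_of_ne_bot hne
    obtain ⟨z, hz, hPz⟩ := H h ((h.inf' _ _).1 hh).1
    refine forall_full (P := fun h z => ¬ P h z) e hP.not (b ⊓ cᶜ) ?_ h hh z hz hPz
    intro h' hh' i hPi
    rw [h'.inf', h'.compl'] at hh'
    exact hh'.2 (h'.iSup_of (fun i => bval (fun h => P h (Mdl.mk h (e i)))) i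
      (((hP.clop (e i)).iff h').1 hPi))
  have := le_compl_iff_disjoint_right.2 (disjoint_iff.2 hb)
  rwa [compl_compl] at this

section Choice

/-- Choice. -/
theorem choice_name (x : BName B) : ∃ c : BName B, ∀ h : Ult B,
    (∀ y, E h y (Mdl.mk h x) → ∃ z, E h z y) →
    (∀ y y', E h y (Mdl.mk h x) → E h y' (Mdl.mk h x) → y ≠ y' → ¬ ∃ z, E h z y ∧ E h z y') →
    ∀ y, E h y (Mdl.mk h x) → ∃! z, E h z y ∧ E h z (Mdl.mk h c) := by
  classical
  set U := sunion x with hU
  let r : U.Idx → U.Idx → Prop := WellOrderingRel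
  let sel : BName B → U.Idx → B := fun y i =>
    (U.coe i ⊓ bmem (U.fam i) y) ⊓ (⨆ j : {j : U.Idx // r j i}, U.coe j.1 ⊓ bmem (U.fam j.1) y)ᶜ
  have hsel_ext : ∀ i, Ext (fun y => sel y i) := by
    intro i y y'
    refine le_inf (le_inf ?_ ?_) ?_
    · exact inf_le_right.trans (inf_le_left.trans inf_le_left)
    · exact (inf_le_inf_left _ (inf_le_left.trans inf_le_right)).trans (bmem_congr_right _ _ _)
    · refine (inf_le_inf_left _ inf_le_right).trans (compl_ext_aux ?_)
      rw [inf_iSup_eq]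
      refine iSup_mono fun j => le_inf (inf_le_right.trans inf_le_left) ?_
      rw [beq_symm]
      exact (inf_le_inf_left _ inf_le_right).trans (bmem_congr_right _ _ _)
  have hsel_disj : ∀ y i j, i ≠ j → Disjoint (sel y i) (sel y j) := by
    have key : ∀ y i j, r i j → Disjoint (sel y i) (sel y j) := by
      intro y i j hij
      refine disjoint_compl_right.mono ?_ (inf_le_right : sel y j ≤ _)
      exact inf_le_left.trans (le_iSup
        (fun j' : {j' : U.Idx // r j' j} => U.coe j'.1 ⊓ bmem (U.fam j'.1) y) ⟨i, hij⟩)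
    intro y i j hij
    rcases trichotomous_of r i j with h | h | h
    · exact key y i j h
    · exact absurd h hij
    · exact (key y j i h).symm
  have hsel_sup : ∀ y i, U.coe i ⊓ bmem (U.fam i) y ≤ ⨆ j, sel y j := by
    intro y i
    induction i using (IsWellFounded.wf (r := r)).induction with
    | _ i ih =>
      have h1 : U.coe i ⊓ bmem (U.fam i) y ≤ sel y i ⊔
          (⨆ j : {j : U.Idx // r j i}, U.coe j.1 ⊓ bmem (U.fam j.1) y) := by
        change _ ≤ ((U.coe i ⊓ bmem (U.fam i) y) ⊓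
          (⨆ j : {j : U.Idx // r j i}, U.coe j.1 ⊓ bmem (U.fam j.1) y)ᶜ) ⊔ _
        rw [sup_inf_right, compl_sup_eq_top, inf_top_eq]
        exact le_sup_left
      exact h1.trans (sup_le (le_iSup (sel y) i) (iSup_le fun j => ih j.1 j.2))
  let c : BName B := BName.mk U.Idx U.fam (fun i => ⨆ y, bmem y x ⊓ sel y i)
  have hc : ∀ z, bmem z c = ⨆ i, (⨆ y, bmem y x ⊓ sel y i) ⊓ beq z (U.fam i) := fun z => rfl
  refine ⟨c, fun h hne hdis y hy => ?_⟩
  obtain ⟨y, rfl⟩ := y.exists_rep
  rw [E_mk] at hy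
  -- existence
  have hex : ∃ z, E h z (Mdl.mk h y) ∧ E h z (Mdl.mk h c) := by
    obtain ⟨z, hz⟩ := hne _ ((E_mk).2 hy)
    obtain ⟨z, rfl⟩ := z.exists_rep
    rw [E_mk] at hz
    have hzU : h.V (bmem z U) := by
      have := (E_sunion h x (Mdl.mk h z)).2 ⟨Mdl.mk h y, (E_mk).2 hy, (E_mk).2 hz⟩
      exact (E_mk).1 this
    have h1 : bmem y x ⊓ bmem z y ⊓ bmem z U ≤ ⨆ z, bmem z y ⊓ bmem z c := by
      rw [bmem_eq z U, inf_iSup_eq]
      refine iSup_le fun i => ?_
      have h2 : bmem y x ⊓ bmem z y ⊓ (U.coe i ⊓ beq z (U.fam i)) ≤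
          bmem y x ⊓ (U.coe i ⊓ bmem (U.fam i) y) := by
        refine le_inf (inf_le_left.trans inf_le_left) (le_inf (inf_le_right.trans inf_le_left) ?_)
        refine le_trans ?_ (bmem_congr_left z (U.fam i) y)
        exact le_inf (inf_le_right.trans inf_le_right) (inf_le_left.trans inf_le_right)
      refine h2.trans ((inf_le_inf_left _ (hsel_sup y i)).trans ?_)
      rw [inf_iSup_eq]
      refine iSup_le fun j => le_iSup_of_le (U.fam j) (le_inf ?_ ?_)
      · exact inf_le_right.trans (inf_le_left.trans inf_le_right)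
      · rw [hc]
        refine le_iSup_of_le j ?_
        rw [beq_refl, inf_top_eq]
        exact le_iSup (fun y => bmem y x ⊓ sel y j) y
    have h3 := h.mono h1 ((h.inf' _ _).2 ⟨(h.inf' _ _).2 ⟨hy, hz⟩, hzU⟩)
    rw [h.exists_iff] at h3
    · obtain ⟨z', hz'⟩ := h3
      exact ⟨Mdl.mk h z', (h.inf' _ _).1 hz'⟩
    · intro a b
      exact le_inf ((inf_le_inf_left _ inf_le_left).trans (bmem_congr_left _ _ _))
        ((inf_le_inf_left _ inf_le_right).trans (bmem_congr_left _ _ _))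
  obtain ⟨z, hz⟩ := hex
  refine ⟨z, hz, ?_⟩
  -- uniqueness
  have huniq : ∀ z : BName B, h.V (bmem z y) → h.V (bmem z c) →
      h.V (⨆ i, sel y i ⊓ beq z (U.fam i)) := by
    intro z hzy hzc
    -- disjointness value
    let D : B := ⨅ y', (bmem y' x ⊓ bmem z y') ⇨ beq y y'
    have hDext : Ext (fun y' => (bmem y' x ⊓ bmem z y') ⇨ beq y y') := by
      intro a b
      change beq a b ⊓ ((bmem a x ⊓ bmem z a) ⇨ beq y a) ≤ ((bmem b x ⊓ bmem z b) ⇨ beq y b)
      rw [Ult.le_iff]
      intro h' hh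
      rw [h'.inf', h'.himp, h'.inf'] at hh
      rw [h'.himp, h'.inf']
      intro hb
      have hab : Mdl.mk h' a = Mdl.mk h' b := Mdl.mk_eq.2 hh.1
      have h4 : h'.V (bmem a x) ∧ h'.V (bmem z a) := by
        have h41 : E h' (Mdl.mk h' a) (Mdl.mk h' x) := by rw [hab]; exact hb.1
        have h42 : E h' (Mdl.mk h' z) (Mdl.mk h' a) := by rw [hab]; exact hb.2
        exact ⟨h41, h42⟩
      have h5 := hh.2 h4
      rw [← Mdl.mk_eq] at h5 ⊢
      rw [h5, hab]
    have hD : h.V D := by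
      rw [h.forall_iff hDext]
      intro y'
      rw [h.himp, h.inf']
      rintro ⟨h1, h2⟩
      rw [← Mdl.mk_eq]
      by_contra hne'
      exact hdis (Mdl.mk h y) (Mdl.mk h y') hy h1 hne' ⟨Mdl.mk h z, hzy, h2⟩
    have h1 : D ⊓ bmem z c ≤ ⨆ i, sel y i ⊓ beq z (U.fam i) := by
      rw [hc, inf_iSup_eq]
      refine iSup_mono fun i => le_inf ?_ (inf_le_right.trans inf_le_right)
      rw [← inf_assoc, inf_iSup_eq, iSup_inf_eq]
      refine iSup_le fun y' => ?_
      have h2 : D ⊓ (bmem y' x ⊓ sel y' i) ⊓ beq z (U.fam i) ≤ beq y' y ⊓ sel y' i := by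
        refine le_inf ?_ (inf_le_left.trans (inf_le_right.trans inf_le_right))
        rw [Ult.le_iff]
        intro h' hh
        rw [h'.inf', h'.inf', h'.inf'] at hh
        obtain ⟨⟨h3, h4, h5⟩, h6⟩ := hh
        have h7 := h'.iInf_at _ y' h3
        rw [h'.himp, h'.inf'] at h7
        rw [beq_symm]
        refine h7 ⟨h4, ?_⟩
        have h8 : h'.V (bmem (U.fam i) y') :=
          h'.mono (inf_le_left.trans inf_le_right : sel y' i ≤ bmem (U.fam i) y') h5
        have h9 : Mdl.mk h' z = Mdl.mk h' (U.fam i) := Mdl.mk_eq.2 h6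
        change E h' (Mdl.mk h' z) (Mdl.mk h' y')
        rw [h9]; exact h8
      exact h2.trans (hsel_ext i y' y)
    exact h.mono h1 ((h.inf' _ _).2 ⟨hD, hzc⟩)
  rintro z' ⟨hz'y, hz'c⟩
  obtain ⟨z, rfl⟩ := z.exists_rep
  obtain ⟨z', rfl⟩ := z'.exists_rep
  have h1 := huniq z hz.1 hz.2
  have h2 := huniq z' hz'y hz'c
  rw [Mdl.mk_eq]
  refine h.mono ?_ ((h.inf' _ _).2 ⟨h2, h1⟩)
  rw [iSup_inf_eq]
  refine iSup_le fun i => ?_
  rw [inf_iSup_eq]
  refine iSup_le fun j => ?_
  by_cases hij : i = j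
  · subst hij
    refine le_trans ?_ (beq_trans z' (U.fam i) z)
    refine le_inf (inf_le_left.trans inf_le_right) ?_
    rw [beq_symm (U.fam i) z]
    exact inf_le_right.trans inf_le_right
  · have : sel y i ⊓ beq z' (U.fam i) ⊓ (sel y j ⊓ beq z (U.fam j)) ≤ sel y i ⊓ sel y j :=
      le_inf (inf_le_left.trans inf_le_left) (inf_le_right.trans inf_le_left)
    exact (this.trans (hsel_disj y i j hij).le_bot).trans bot_le

end Choice

/-- The successor of a natural number name. -/
theorem E_vN_succ {B : Type} [CompleteBooleanAlgebra B] {h : Ult B} (n : ℕ) (z : Mdl h) :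
    E h z (Mdl.mk h (vN (n + 1))) ↔ E h z (Mdl.mk h (vN n)) ∨ z = Mdl.mk h (vN n) := by
  obtain ⟨z, rfl⟩ := z.exists_rep
  rw [E_mk, E_mk, Mdl.mk_eq, ← h.sup]
  have : bmem z (vN (n + 1)) = bmem z (vN n) ⊔ beq z (vN n) := by
    rw [bmem_vN, bmem_vN]
    apply le_antisymm
    · refine iSup_le fun c => ?_
      rcases Nat.lt_succ_iff_lt_or_eq.1 c.2 with h1 | h1
      · exact le_sup_of_le_left (le_iSup (fun b : {b : ℕ // b < n} => beq z (vN b.1)) ⟨c.1, h1⟩)
      · rw [h1]; exact le_sup_right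
    · refine sup_le (iSup_le fun c => ?_) ?_
      · exact le_iSup (fun b : {b : ℕ // b < n + 1} => beq z (vN b.1))
          ⟨c.1, c.2.trans (Nat.lt_succ_self n)⟩
      · exact le_iSup (fun b : {b : ℕ // b < n + 1} => beq z (vN b.1)) ⟨n, Nat.lt_succ_self n⟩
  rw [this]

/-- The Boolean valued model is a model of ZFC. -/
theorem mod_zfc {B : Type} [CompleteBooleanAlgebra B] (h : Ult B) : IsModelZFC (E h) where
  extensionality := fun x y => Mdl.ext
  foundation := foundation
  pairing := fun a b => by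
    obtain ⟨a, rfl⟩ := a.exists_rep
    obtain ⟨b, rfl⟩ := b.exists_rep
    exact ⟨_, fun z => E_upair h a b z⟩
  union := fun x => by
    obtain ⟨x, rfl⟩ := x.exists_rep
    exact ⟨_, fun z => E_sunion h x z⟩
  powerset := fun x => by
    obtain ⟨x, rfl⟩ := x.exists_rep
    obtain ⟨y, hy⟩ := separation_name (H := fun h : Ult B => h)
      (D := fun h z => ∀ w, E h w z → E h w (Mdl.mk h x))
      (BPred.all (Q := fun h z w => E h w (Mdl.mk h z) → E h w (Mdl.mk h x))
        ((BPred.mem BTerm.snd BTerm.id.fst).imp (BPred.mem BTerm.snd (BTerm.const x)))) (spow x)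
    refine ⟨Mdl.mk h y, fun z => ?_⟩
    rw [hy h z]
    exact ⟨fun hh => hh.2, fun hh => ⟨subset_mem_spow h x z hh, hh⟩⟩
  infinity := by
    refine ⟨Mdl.mk h (vNset B ℕ), ⟨Mdl.mk h (vN 0), ?_, E_vN_vNset 0⟩, ?_⟩
    · intro z hz
      obtain ⟨z, rfl⟩ := z.exists_rep
      rw [E_mk, bmem_vN] at hz
      refine h.bot (h.mono (iSup_le fun c => ?_) hz)
      exact absurd c.2 (Nat.not_lt_zero _)
    · refine forall_full (P := fun h x => ∃ y, E h y (Mdl.mk h (vNset B ℕ)) ∧
        ∀ z, E h z y ↔ E h z x ∨ z = x) _ ?_ ⊤ ?_ h h.top'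
      · refine BPred.ex (Q := fun h x y => E h y (Mdl.mk h (vNset B ℕ)) ∧
          ∀ z, E h z y ↔ E h z (Mdl.mk h x) ∨ z = Mdl.mk h x) ?_
        refine (BPred.mem BTerm.snd (BTerm.const _)).and ?_
        refine BPred.all (Q := fun h (p : BName B × BName B) z => E h z (Mdl.mk h p.2) ↔
          E h z (Mdl.mk h p.1) ∨ z = Mdl.mk h p.1) ?_
        exact (BPred.mem BTerm.snd BTerm.snd.fst).iff
          ((BPred.mem BTerm.snd BTerm.id.fst.fst).or (BPred.eq BTerm.snd BTerm.id.fst.fst))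
      · intro h _ n
        exact ⟨Mdl.mk h (vN (n + 1)), E_vN_vNset _, fun z => E_vN_succ n z⟩
  separation := fun D hD x => by
    obtain ⟨x, rfl⟩ := x.exists_rep
    obtain ⟨y, hy⟩ := separation_name (H := fun _ : Unit => h) (D := fun _ z => D z)
      (def₁_bpred hD) x
    exact ⟨Mdl.mk h y, hy ()⟩
  replacement := fun R hR x hx => by
    obtain ⟨x, rfl⟩ := x.exists_rep
    have hR' := def₂_bpred hR
    obtain ⟨w, hw⟩ := collection_name (H := fun _ : Unit => h) (R := fun _ y z => R y z) hR' x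
    obtain ⟨v, hv⟩ := separation_name (H := fun _ : Unit => h)
      (D := fun _ z => ∃ y, E h y (Mdl.mk h x) ∧ R y z)
      (BPred.ex (Q := fun _ z y => E h y (Mdl.mk h x) ∧ R y (Mdl.mk h z))
        ((BPred.mem (H := fun _ : Unit => h) BTerm.snd (BTerm.const x)).and
          (hR'.comp (f := fun p : BName B × BName B => (p.2, p.1)) (by
            intro p q
            exact le_inf inf_le_right inf_le_left)))) w
    refine ⟨Mdl.mk h v, fun z => ?_⟩
    rw [hv () z]
    constructor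
    · exact fun hh => hh.2
    · rintro ⟨y, hy, hyz⟩
      refine ⟨?_, y, hy, hyz⟩
      obtain ⟨z', hz', hyz'⟩ := hw () y hy ⟨z, hyz⟩
      have := (hx y hy).unique hyz hyz'
      rw [this]; exact hz'
  choice := fun x hne hdis => by
    obtain ⟨x, rfl⟩ := x.exists_rep
    obtain ⟨c, hc⟩ := choice_name x
    exact ⟨Mdl.mk h c, hc h hne hdis⟩

end Pool.Agent.BVM
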